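import Pool.Agent.R823.SA.Stm

/-! Piece CORE of project SA: passing to an overgroup of finite index. -/

namespace Pool.Agent.R823.SA

theorem sCORE : S_CORE := by
  intro R _ _ R0 a c hT
  obtain ⟨A0, hn, hab, hidx, htor⟩ := hT
  classical
  let A1 : Subgroup R := A0.map R0.subtype
  have hA1 : ∀ x : R, x ∈ A1 ↔ ∃ h : x ∈ R0, (⟨x, h⟩ : R0) ∈ A0 := by
    intro x
    constructor
    · rintro ⟨y, hy, rfl⟩
      exact ⟨y.2, hy⟩
    · rintro ⟨h, hx⟩
      exact ⟨⟨x, h⟩, hx, rfl⟩
  have hconj : ∀ h ∈ R0, ∀ y ∈ A1, h * y * h⁻¹ ∈ A1 := by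
    intro h hh y hy
    obtain ⟨y0, hy0, rfl⟩ := hy
    exact ⟨⟨h, hh⟩ * y0 * ⟨h, hh⟩⁻¹, hn.conj_mem y0 hy0 ⟨h, hh⟩, rfl⟩
  have hi1 : A1.index = A0.index * R0.index := by
    have := Subgroup.relIndex_mul_index (Subgroup.map_subtype_le A0 : A1 ≤ R0)
    rw [← this, Subgroup.relIndex]
    congr 1
    have : A1.subgroupOf R0 = A0 := by
      ext x
      rw [Subgroup.mem_subgroupOf, hA1]
      exact ⟨fun ⟨_, h⟩ => h, fun h => ⟨x.2, h⟩⟩
    rw [this]
  refine ⟨A1.normalCore, inferInstance, ?_, ?_, ?_⟩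
  · intro x hx y hy
    have hx1 := A1.normalCore_le hx
    have hy1 := A1.normalCore_le hy
    obtain ⟨x0, hx0, rfl⟩ := hx1
    obtain ⟨y0, hy0, rfl⟩ := hy1
    exact congrArg R0.subtype (hab x0 hx0 y0 hy0)
  · have : Fintype (R ⧸ R0) := Fintype.ofFinite _
    let f : R ⧸ R0 → Subgroup R := fun q => A1.map (MulAut.conj q.out).toMonoidHom
    have hle : ⨅ q, f q ≤ A1.normalCore := by
      intro x hx
      rw [Subgroup.mem_iInf] at hx
      intro b
      have h1 := hx (QuotientGroup.mk b⁻¹)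
      obtain ⟨y, hy, hyx⟩ := h1
      have h2 : ((QuotientGroup.mk b⁻¹ : R ⧸ R0).out) ∈ {z : R | b * z ∈ R0} := by
        have h3 : (QuotientGroup.mk ((QuotientGroup.mk b⁻¹ : R ⧸ R0).out) : R ⧸ R0) =
            QuotientGroup.mk b⁻¹ := Quotient.out_eq' _
        have h4 := QuotientGroup.eq.1 h3.symm
        rw [inv_inv] at h4
        exact h4
      have h5 := hconj _ h2 y hy
      have h6 : b * x * b⁻¹ = (b * (QuotientGroup.mk b⁻¹ : R ⧸ R0).out) * y *
          (b * (QuotientGroup.mk b⁻¹ : R ⧸ R0).out)⁻¹ := by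
        rw [← hyx]
        simp [mul_assoc]
      rw [h6]
      exact h5
    have hf : ∀ q, (f q).index = A1.index := by
      intro q
      exact Subgroup.index_map_equiv A1 (MulAut.conj q.out)
    calc A1.normalCore.index ≤ (⨅ q, f q).index :=
          Nat.le_of_dvd (Nat.pos_of_ne_zero Subgroup.FiniteIndex.index_ne_zero)
            (Subgroup.index_dvd_of_le hle)
      _ ≤ ∏ q, (f q).index := Subgroup.index_iInf_le f
      _ = A1.index ^ R0.index := by
          have hcard : Fintype.card (R ⧸ R0) = R0.index := by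
            rw [Subgroup.index_eq_card, Nat.card_eq_fintype_card]
          rw [Finset.prod_congr rfl (fun q _ => hf q), Finset.prod_const, Finset.card_univ, hcard]
      _ ≤ (c * R0.index) ^ R0.index := by
          rw [hi1]
          exact Nat.pow_le_pow_left (Nat.mul_le_mul_right _ hidx) _
  · intro m hm
    refine le_trans ?_ (htor m hm)
    refine Nat.card_le_card_of_injective
      (fun x : {x : R // x ∈ A1.normalCore ∧ x ^ m = 1} =>
        (⟨⟨x.1, ((hA1 _).1 (A1.normalCore_le x.2.1)).1⟩,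
          ((hA1 _).1 (A1.normalCore_le x.2.1)).2, by
            ext
            simpa using x.2.2⟩ : {x : R0 // x ∈ A0 ∧ x ^ m = 1})) ?_
    intro x y hxy
    have := congrArg (fun z : {x : R0 // x ∈ A0 ∧ x ^ m = 1} => ((z.1 : R0) : R)) hxy
    exact Subtype.ext this

end Pool.Agent.R823.SA
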