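import Pool.Agent.R823.SA.Stm

/-! PROJECT SA, piece EXT: the extension step (helper850) -/

set_option autoImplicit false

namespace Pool.Agent.R823.SA

namespace EXT

open scoped Pointwise

theorem lemSyl {B : Type} [Group B] [Finite B] (r : ℕ) [Fact r.Prime] (M R0 : Subgroup B)
    (hR0 : IsPGroup r R0) (hR0M : R0 ≤ M) :
    ∃ S : Subgroup B, S ≤ M ∧ IsPGroup r S ∧ R0 ≤ S ∧
      ∀ R : Subgroup B, R ≤ M → IsPGroup r R → ∃ m ∈ M, ∀ x ∈ R, m * x * m⁻¹ ∈ S := by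
  have h0 : IsPGroup r (R0.comap M.subtype) := hR0.comap_subtype
  obtain ⟨S', hS'⟩ := h0.exists_le_sylow
  refine ⟨(S' : Subgroup M).map M.subtype, ?_, S'.isPGroup'.map M.subtype, ?_, ?_⟩
  · rintro _ ⟨x, -, rfl⟩
    exact x.2
  · intro x hx
    exact ⟨⟨x, hR0M hx⟩, hS' hx, rfl⟩
  · intro R hRM hR
    have h1 : IsPGroup r (R.comap M.subtype) := hR.comap_subtype
    obtain ⟨T, hT⟩ := h1.exists_le_sylow
    obtain ⟨g, hg⟩ := MulAction.exists_smul_eq M T S'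
    refine ⟨g, g.2, fun x hx => ?_⟩
    have hxT : (⟨x, hRM hx⟩ : M) ∈ (T : Subgroup M) := hT hx
    have h2 : MulAut.conj g • (⟨x, hRM hx⟩ : M) ∈ MulAut.conj g • (T : Subgroup M) :=
      Subgroup.smul_mem_pointwise_smul _ _ _ hxT
    rw [← Sylow.coe_subgroup_smul, hg] at h2
    exact ⟨_, h2, rfl⟩

theorem exact_of {α : Type} {R : α → α → Prop} (hR : Equivalence R) {a b : α}
    (h : Quot.mk R a = Quot.mk R b) : R a b :=
  hR.eqvGen_iff.1 (Quot.eqvGen_exact h)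

theorem gen {G : Type} [Group G] [Finite G] (r : ℕ) [Fact r.Prime] (N : Subgroup G) [N.Normal]
    (hN : IsPGroup r (G ⧸ N)) (P : Sylow r G) (g : G) : ∃ n ∈ N, ∃ p ∈ P, g = n * p := by
  have h1 : (N ⊔ (P : Subgroup G)).index ∣ N.index := Subgroup.index_dvd_of_le le_sup_left
  have h2 : (N ⊔ (P : Subgroup G)).index ∣ (P : Subgroup G).index :=
    Subgroup.index_dvd_of_le le_sup_right
  obtain ⟨k, hk⟩ := (IsPGroup.iff_card.1 hN)
  have h3 : (N ⊔ (P : Subgroup G)).index ∣ r ^ k := by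
    rw [← hk]
    exact h1
  obtain ⟨j, -, hj⟩ := (Nat.dvd_prime_pow (Fact.out : r.Prime)).1 h3
  have h4 : (N ⊔ (P : Subgroup G)).index = 1 := by
    rcases Nat.eq_zero_or_pos j with h0 | h0
    · rw [hj, h0, pow_zero]
    · exfalso
      apply P.not_dvd_index
      refine dvd_trans ?_ h2
      rw [hj]
      exact dvd_pow_self r h0.ne'
  rw [Subgroup.index_eq_one] at h4
  have h5 : g ∈ ((N ⊔ (P : Subgroup G) : Subgroup G) : Set G) := by
    rw [h4]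
    exact Subgroup.mem_top g
  rw [Subgroup.normal_mul] at h5
  obtain ⟨n, hn, p, hp, h⟩ := h5
  exact ⟨n, hn, p, hp, h.symm⟩

end EXT

theorem sEXT (hH1 : S_H1) : S_EXT := by
  intro G B _ _ _ _ r hr N _ hGN a c hS ψ
  have : Fact r.Prime := ⟨hr⟩
  classical
  -- the trivial case
  by_cases hE : Nonempty {φ : G →* B // ∀ n : N, φ n = ψ n}
  swap
  · have : IsEmpty {φ : G →* B // ∀ n : N, φ n = ψ n} := not_nonempty_iff.1 hE
    have : IsEmpty (Quot (fun φ φ' : {φ : G →* B // ∀ n : N, φ n = ψ n} =>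
        ∃ b : B, (∀ n : N, b * ψ n = ψ n * b) ∧ ∀ g : G, φ'.1 g = b * φ.1 g * b⁻¹)) :=
      ⟨fun x => by
        obtain ⟨y, -⟩ := Quot.exists_rep x
        exact isEmptyElim y⟩
    rw [Nat.card_of_isEmpty]
    exact Nat.zero_le _
  obtain ⟨φ0, hφ0⟩ := hE
  -- the centralizer
  obtain ⟨C, hC⟩ : ∃ C : Subgroup B, ∀ b, b ∈ C ↔ ∀ n : N, b * ψ n = ψ n * b := by
    refine ⟨Subgroup.centralizer (Set.range ψ), fun b => ?_⟩
    rw [Subgroup.mem_centralizer_iff]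
    constructor
    · intro h n
      exact (h _ ⟨n, rfl⟩).symm
    · rintro h _ ⟨n, rfl⟩
      exact (h n).symm
  have hCG : ∀ b, b ∈ C ↔ ∀ n ∈ N, b * φ0 n = φ0 n * b := by
    intro b
    rw [hC]
    constructor
    · intro h n hn
      have := h ⟨n, hn⟩
      rwa [← hφ0] at this
    · intro h n
      rw [← hφ0]
      exact h n n.2
  have hnorm : ∀ (g : G), ∀ x ∈ C, φ0 g * x * (φ0 g)⁻¹ ∈ C := by
    intro g x hx
    rw [hCG] at hx ⊢
    intro n hn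
    have hn' : g⁻¹ * n * g ∈ N := by
      have := Subgroup.Normal.conj_mem (inferInstanceAs N.Normal) n hn g⁻¹
      rwa [inv_inv] at this
    have h := hx _ hn'
    rw [map_mul, map_mul, map_inv] at h
    calc φ0 g * x * (φ0 g)⁻¹ * φ0 n =
          φ0 g * (x * ((φ0 g)⁻¹ * φ0 n * φ0 g)) * (φ0 g)⁻¹ := by group
      _ = φ0 g * (((φ0 g)⁻¹ * φ0 n * φ0 g) * x) * (φ0 g)⁻¹ := by rw [h]
      _ = φ0 n * (φ0 g * x * (φ0 g)⁻¹) := by group
  have hdiff : ∀ φ : G →* B, (∀ n : N, φ n = ψ n) → ∀ g, (φ0 g)⁻¹ * φ g ∈ C := by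
    intro φ hφ g
    rw [hCG]
    intro n hn
    have hn' : g * n * g⁻¹ ∈ N := Subgroup.Normal.conj_mem (inferInstanceAs N.Normal) n hn g
    have e1 : φ n = φ0 n := by
      have h1 := hφ ⟨n, hn⟩
      have h2 := hφ0 ⟨n, hn⟩
      exact h1.trans h2.symm
    have e2 : φ (g * n * g⁻¹) = φ0 (g * n * g⁻¹) := by
      have h1 := hφ ⟨_, hn'⟩
      have h2 := hφ0 ⟨_, hn'⟩
      exact h1.trans h2.symm
    rw [map_mul, map_mul, map_inv, map_mul, map_mul, map_inv, e1] at e2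
    calc (φ0 g)⁻¹ * φ g * φ0 n = (φ0 g)⁻¹ * (φ g * φ0 n * (φ g)⁻¹) * φ g := by group
      _ = (φ0 g)⁻¹ * (φ0 g * φ0 n * (φ0 g)⁻¹) * φ g := by rw [e2]
      _ = φ0 n * ((φ0 g)⁻¹ * φ g) := by group
  -- the Sylow subgroup
  obtain ⟨P⟩ : Nonempty (Sylow r G) := inferInstance
  obtain ⟨M, hM⟩ : ∃ M : Subgroup B, ∀ b, b ∈ M ↔ ∃ p ∈ P, ∃ x ∈ C, b = φ0 p * x := by
    refine ⟨⟨⟨⟨{b | ∃ p ∈ P, ∃ x ∈ C, b = φ0 p * x}, ?_⟩, ?_⟩, ?_⟩, fun b => Iff.rfl⟩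
    · rintro _ _ ⟨p, hp, x, hx, rfl⟩ ⟨q, hq, y, hy, rfl⟩
      refine ⟨p * q, mul_mem hp hq, (φ0 q⁻¹ * x * (φ0 q⁻¹)⁻¹) * y,
        mul_mem (hnorm q⁻¹ x hx) hy, ?_⟩
      rw [map_mul, map_inv]
      group
    · exact ⟨1, one_mem _, 1, one_mem _, by simp⟩
    · rintro _ ⟨p, hp, x, hx, rfl⟩
      refine ⟨p⁻¹, inv_mem hp, φ0 p * x⁻¹ * (φ0 p)⁻¹, hnorm p x⁻¹ (inv_mem hx), ?_⟩
      rw [map_inv]
      group
  have hPM : ∀ φ : G →* B, (∀ n : N, φ n = ψ n) → (P : Subgroup G).map φ ≤ M := by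
    rintro φ hφ _ ⟨p, hp, rfl⟩
    rw [hM]
    exact ⟨p, hp, _, hdiff φ hφ p, by group⟩
  obtain ⟨S, hSM, hSr, hPS, hconj⟩ := EXT.lemSyl r M ((P : Subgroup G).map φ0)
    (P.isPGroup'.map φ0) (hPM φ0 hφ0)
  have hφ0S : ∀ p ∈ P, φ0 p ∈ S := fun p hp => hPS ⟨p, hp, rfl⟩
  -- representatives
  have hrep : ∀ x : Quot (fun φ φ' : {φ : G →* B // ∀ n : N, φ n = ψ n} =>
      ∃ b : B, (∀ n : N, b * ψ n = ψ n * b) ∧ ∀ g : G, φ'.1 g = b * φ.1 g * b⁻¹),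
      ∃ φ : {φ : G →* B // ∀ n : N, φ n = ψ n}, Quot.mk _ φ = x ∧ ∀ p ∈ P, φ.1 p ∈ S := by
    intro x
    obtain ⟨φ, rfl⟩ := Quot.exists_rep x
    obtain ⟨m, hm, hmS⟩ := hconj _ (hPM φ.1 φ.2) (P.isPGroup'.map φ.1)
    rw [hM] at hm
    obtain ⟨p, hp, y, hy, rfl⟩ := hm
    have hy' := (hC y).1 hy
    refine ⟨⟨(MulAut.conj y).toMonoidHom.comp φ.1, fun n => ?_⟩, ?_, fun q hq => ?_⟩
    · change y * φ.1 n * y⁻¹ = ψ n
      rw [φ.2 n, hy' n, mul_assoc, mul_inv_cancel, mul_one]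
    · refine (Quot.sound ⟨y, hy', fun g => ?_⟩).symm
      rfl
    · change y * φ.1 q * y⁻¹ ∈ S
      have h1 := hmS (φ.1 q) ⟨q, hq, rfl⟩
      have h2 := mul_mem (mul_mem (inv_mem (hφ0S p hp)) h1) (hφ0S p hp)
      have h3 : (φ0 p)⁻¹ * (φ0 p * y * φ.1 q * (φ0 p * y)⁻¹) * φ0 p = y * φ.1 q * y⁻¹ := by
        group
      rwa [h3] at h2
  choose f hf1 hf2 using hrep
  let θ : Quot (fun φ φ' : {φ : G →* B // ∀ n : N, φ n = ψ n} =>
      ∃ b : B, (∀ n : N, b * ψ n = ψ n * b) ∧ ∀ g : G, φ'.1 g = b * φ.1 g * b⁻¹) →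
      ((P : Subgroup G) →* S) := fun x =>
    ((f x).1.comp (P : Subgroup G).subtype).codRestrict S (fun p => hf2 x p.1 p.2)
  have hequiv : Equivalence (fun φ ψ : (P : Subgroup G) →* S => ∃ a : S,
      ∀ g : (P : Subgroup G), ψ g = a * φ g * a⁻¹) := by
    refine ⟨fun φ => ⟨1, fun g => by simp⟩, ?_, ?_⟩
    · rintro φ ψ ⟨a, h⟩
      exact ⟨a⁻¹, fun g => by rw [h g]; group⟩
    · rintro φ ψ χ ⟨a, h⟩ ⟨b, h'⟩
      exact ⟨b * a, fun g => by rw [h' g, h g]; group⟩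
  have hs : ∀ x, ∃ s : S, ∀ g : (P : Subgroup G), θ x g = s *
      (Quot.out (Quot.mk (fun φ ψ : (P : Subgroup G) →* S => ∃ a : S,
        ∀ g : (P : Subgroup G), ψ g = a * φ g * a⁻¹) (θ x))) g * s⁻¹ := fun x =>
    EXT.exact_of hequiv (Quot.out_eq _)
  choose s hs using hs
  have : Finite ((P : Subgroup G) →* S) :=
    Finite.of_injective (fun f : (P : Subgroup G) →* S => ⇑f)
      DFunLike.coe_injective
  have : Finite (Quot (fun φ ψ : (P : Subgroup G) →* S => ∃ a : S,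
        ∀ g : (P : Subgroup G), ψ g = a * φ g * a⁻¹)) := Quot.finite _
  have hcard1 := Nat.card_le_card_of_injective (fun x =>
      ((Quot.mk (fun φ ψ : (P : Subgroup G) →* S => ∃ a : S,
        ∀ g : (P : Subgroup G), ψ g = a * φ g * a⁻¹) (θ x)),
        (QuotientGroup.mk (s x)⁻¹ : S ⧸ (C.subgroupOf S)))) (by
      intro x x' hxx
      have h1 := (Prod.ext_iff.1 hxx).1
      have h2 := (Prod.ext_iff.1 hxx).2
      simp only at h1 h2
      rw [QuotientGroup.eq, inv_inv, Subgroup.mem_subgroupOf] at h2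
      have h3 := (hC _).1 h2
      have h4 : ∀ p : (P : Subgroup G), θ x p = (s x * (s x')⁻¹) * θ x' p * (s x * (s x')⁻¹)⁻¹ := by
        intro p
        rw [hs x p, hs x' p, h1]
        group
      have h5 : Quot.mk (fun φ φ' : {φ : G →* B // ∀ n : N, φ n = ψ n} =>
          ∃ b : B, (∀ n : N, b * ψ n = ψ n * b) ∧ ∀ g : G, φ'.1 g = b * φ.1 g * b⁻¹) (f x') =
          Quot.mk _ (f x) := by
        refine Quot.sound ⟨((s x * (s x')⁻¹ : S) : B), h3, fun g => ?_⟩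
        obtain ⟨n, hn, p, hp, rfl⟩ := EXT.gen r N hGN P g
        have h6 := congrArg Subtype.val (h4 ⟨p, hp⟩)
        change (f x).1 p = ((s x * (s x')⁻¹ : S) : B) * (f x').1 p *
          ((s x * (s x')⁻¹ : S) : B)⁻¹ at h6
        have h7 := (f x).2 ⟨n, hn⟩
        have h8 := (f x').2 ⟨n, hn⟩
        change (f x).1 n = _ at h7
        change (f x').1 n = _ at h8
        have h9 := h3 ⟨n, hn⟩
        rw [map_mul, map_mul, h7, h8, h6]
        generalize ((s x * (s x')⁻¹ : S) : B) = d at h9 ⊢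
        rw [← mul_assoc d (ψ ⟨n, hn⟩), h9]
        group
      rw [hf1, hf1] at h5
      exact h5.symm)
  have hcard2 : Nat.card (S ⧸ (C.subgroupOf S)) ≤ Nat.card (P : Subgroup G) := by
    refine Nat.card_le_card_of_surjective (fun p : (P : Subgroup G) =>
      (QuotientGroup.mk ⟨φ0 p, hφ0S p p.2⟩ : S ⧸ (C.subgroupOf S))) ?_
    intro y
    obtain ⟨t, rfl⟩ := QuotientGroup.mk_surjective y
    obtain ⟨p, hp, z, hz, h⟩ := (hM _).1 (hSM t.2)
    refine ⟨⟨p, hp⟩, ?_⟩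
    change (QuotientGroup.mk (⟨φ0 p, hφ0S p hp⟩ : S) : S ⧸ (C.subgroupOf S)) = QuotientGroup.mk t
    rw [QuotientGroup.eq, Subgroup.mem_subgroupOf]
    change (φ0 p)⁻¹ * (t : B) ∈ C
    rw [h, inv_mul_cancel_left]
    exact hz
  have hPG : Nat.card (P : Subgroup G) ≤ Nat.card G :=
    Nat.card_le_card_of_injective _ (P : Subgroup G).subtype_injective
  have hP0 : 0 < Nat.card (P : Subgroup G) := Nat.card_pos
  have hG0 : 0 < Nat.card G := Nat.card_pos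
  have hcl := hH1 (P : Subgroup G) S a c (hS S hSr)
  rw [Nat.card_prod] at hcard1
  refine hcard1.trans ?_
  rw [mul_comm]
  refine Nat.mul_le_mul (hcard2.trans hPG) (hcl.trans (Nat.mul_le_mul ?_ ?_))
  · rcases Nat.eq_zero_or_pos c with h0 | h0
    · rw [h0, zero_pow hP0.ne']
      exact Nat.zero_le _
    · exact Nat.pow_le_pow_right h0 hPG
  · refine (Nat.pow_le_pow_left hPG _).trans (Nat.pow_le_pow_right hG0 ?_)
    exact Nat.mul_le_mul_left _ (by omega)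

end Pool.Agent.R823.SA
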