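import Pool.Agent.R823.SA.Stm

set_option autoImplicit false

namespace Pool.Agent.R823.SA

/-- the conjugation relation is an equivalence relation -/
theorem ind_equiv (G B : Type) [Group G] [Group B] :
    Equivalence (fun φ ψ : G →* B => ∃ a : B, ∀ g : G, ψ g = a * φ g * a⁻¹) := by
  refine ⟨fun φ => ⟨1, fun g => by simp⟩, ?_, ?_⟩
  · rintro φ ψ ⟨a, ha⟩
    refine ⟨a⁻¹, fun g => ?_⟩
    rw [ha g]; group
  · rintro φ ψ χ ⟨a, ha⟩ ⟨b, hb⟩
    refine ⟨b * a, fun g => ?_⟩
    rw [hb g, ha g]; group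

/-- a nontrivial finite solvable group has a proper normal subgroup with quotient an `r`-group -/
theorem ind_exists (G : Type) [Group G] [Finite G] [Group.IsSolvable G] [Nontrivial G] :
    ∃ (r : ℕ) (N : Subgroup G), r.Prime ∧ N.Normal ∧ r ∣ Nat.card G ∧
      (∀ x : G, ∃ k : ℕ, x ^ (r ^ k) ∈ N) ∧ N ≠ ⊤ := by
  have hlt : commutator G < ⊤ := IsSolvable.commutator_lt_top_of_nontrivial G
  haveI : Finite (Abelianization G) := inferInstanceAs (Finite (G ⧸ commutator G))
  have hcard : Nat.card (Abelianization G) ≠ 1 := by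
    intro h
    have : (commutator G).index = 1 := h
    exact hlt.ne (Subgroup.index_eq_one.1 this)
  obtain ⟨r, hr, hrd⟩ := Nat.exists_prime_and_dvd hcard
  haveI : Fact r.Prime := ⟨hr⟩
  set n := Nat.card (Abelianization G) with hn
  have hn0 : n ≠ 0 := Nat.card_pos.ne'
  set m := n / r ^ (n.factorization r) with hm
  have hnm : r ^ (n.factorization r) * m = n := Nat.ordProj_mul_ordCompl_eq_self n r
  have hrm : ¬ r ∣ m := Nat.not_dvd_ordCompl hr hn0
  let F : G →* Abelianization G := (powMonoidHom m).comp Abelianization.of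
  refine ⟨r, F.ker, hr, inferInstance, ?_, ?_, ?_⟩
  · exact hrd.trans (Subgroup.card_quotient_dvd_card (commutator G))
  · intro x
    refine ⟨n.factorization r, ?_⟩
    rw [MonoidHom.mem_ker]
    change (Abelianization.of (x ^ (r ^ (n.factorization r)))) ^ m = 1
    rw [map_pow, ← pow_mul, hnm, hn]
    exact pow_card_eq_one'
  · intro htop
    obtain ⟨y, hy⟩ := exists_prime_orderOf_dvd_card' r hrd
    obtain ⟨x, rfl⟩ : ∃ x : G, Abelianization.of x = y := QuotientGroup.mk_surjective y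
    have hx : x ∈ F.ker := by rw [htop]; trivial
    have : (Abelianization.of x) ^ m = 1 := hx
    apply hrm
    rw [← hy]
    exact orderOf_dvd_of_pow_eq_one this

theorem ind_card (G B : Type) [Group G] [Finite G] [Group B] [Finite B] (N : Subgroup G) (K : ℕ)
    (h : ∀ ψ : N →* B, Nat.card (Quot (fun φ φ' : {φ : G →* B // ∀ n : N, φ n = ψ n} =>
      ∃ b : B, (∀ n : N, b * ψ n = ψ n * b) ∧ ∀ g : G, φ'.1 g = b * φ.1 g * b⁻¹)) ≤ K) :
    cl G B ≤ cl N B * K := by
  classical
  haveI : Finite (G →* B) := Finite.of_injective _ (DFunLike.coe_injective (F := G →* B))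
  haveI : Finite (N →* B) := Finite.of_injective _ (DFunLike.coe_injective (F := N →* B))
  let Q := Quot (fun φ ψ : N →* B => ∃ a : B, ∀ g : N, ψ g = a * φ g * a⁻¹)
  haveI : Finite Q := inferInstance
  haveI := Fintype.ofFinite Q
  let E : (N →* B) → Type := fun ψ => Quot (fun φ φ' : {φ : G →* B // ∀ n : N, φ n = ψ n} =>
      ∃ b : B, (∀ n : N, b * ψ n = ψ n * b) ∧ ∀ g : G, φ'.1 g = b * φ.1 g * b⁻¹)
  haveI : ∀ ψ, Finite (E ψ) := fun ψ => inferInstance
  let T : (Σ q : Q, E q.out) → Quot (fun φ ψ : G →* B => ∃ a : B, ∀ g : G, ψ g = a * φ g * a⁻¹) :=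
    fun p => Quot.lift (fun φ => Quot.mk _ φ.1) (by
      rintro φ φ' ⟨b, -, hb⟩
      exact Quot.sound ⟨b, hb⟩) p.2
  have hT : Function.Surjective T := by
    intro x
    obtain ⟨φ, rfl⟩ := Quot.exists_rep x
    let q : Q := Quot.mk _ (φ.comp N.subtype)
    have hq : Quot.mk _ q.out = (Quot.mk _ (φ.comp N.subtype) : Q) := Quot.out_eq q
    have hex := (Equivalence.eqvGen_iff (ind_equiv N B)).1 (Quot.eqvGen_exact hq.symm)
    obtain ⟨a, ha⟩ := hex
    refine ⟨⟨q, Quot.mk _ ⟨(MulAut.conj a).toMonoidHom.comp φ, fun n => ?_⟩⟩, ?_⟩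
    · rw [ha n]; rfl
    · change Quot.mk _ ((MulAut.conj a).toMonoidHom.comp φ) = Quot.mk _ φ
      exact (Quot.sound ⟨a, fun g => rfl⟩).symm
  have h1 := Nat.card_le_card_of_surjective T hT
  refine h1.trans ?_
  rw [Nat.card_sigma]
  calc ∑ q : Q, Nat.card (E q.out) ≤ ∑ _q : Q, K := Finset.sum_le_sum fun q _ => h q.out
    _ = cl N B * K := by
      rw [Finset.sum_const, Finset.card_univ, smul_eq_mul, ← Nat.card_eq_fintype_card]; rfl

theorem sIND (hE : S_EXT) : S_IND := by
  intro G _ _ _ a c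
  obtain ⟨m, hm⟩ : ∃ m, Nat.card G = m := ⟨_, rfl⟩
  revert hm
  induction m using Nat.strong_induction_on generalizing G with
  | _ m ih =>
    intro hm
    rcases subsingleton_or_nontrivial G with hG | hG
    · refine ⟨1, fun B _ _ _ => ?_⟩
      haveI : Subsingleton (G →* B) := ⟨fun φ ψ => by
        ext g
        rw [Subsingleton.elim g 1, map_one, map_one]⟩
      have : Subsingleton (Quot (fun φ ψ : G →* B => ∃ a : B, ∀ g : G, ψ g = a * φ g * a⁻¹)) :=
        ⟨fun x y => by
          obtain ⟨x, rfl⟩ := Quot.exists_rep x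
          obtain ⟨y, rfl⟩ := Quot.exists_rep y
          rw [Subsingleton.elim x y]⟩
      exact Finite.card_le_one_iff_subsingleton.2 this
    · obtain ⟨r, N, hr, hN, hrG, hp, hNt⟩ := ind_exists G
      have hcN : Nat.card N < m := by
        rw [← hm]
        exact lt_of_le_of_ne (Nat.card_le_card_of_injective _ N.subtype_injective) fun h =>
          hNt (Subgroup.eq_top_of_card_eq N h)
      obtain ⟨K, hK⟩ := ih (Nat.card N) hcN N rfl
      refine ⟨K * (Nat.card G * (c ^ (Nat.card G) * (Nat.card G) ^ (a * (Nat.card G + 1)))),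
        fun B _ _ hB => ?_⟩
      have hquot : IsPGroup r (G ⧸ N) := by
        intro x
        obtain ⟨x, rfl⟩ := QuotientGroup.mk_surjective x
        obtain ⟨k, hk⟩ := hp x
        exact ⟨k, by rw [← QuotientGroup.mk_pow]; exact (QuotientGroup.eq_one_iff _).2 hk⟩
      refine (ind_card G B N _ fun ψ => hE G B r hr N hquot a c (hB r hr hrG) ψ).trans ?_
      exact Nat.mul_le_mul_right _ (hK B fun r' hr' hd => hB r' hr' (hd.trans (Subgroup.card_subgroup_dvd_card N)))

end Pool.Agent.R823.SA
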