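import Pool.Agent.R823.SA.Stm

/-! # SA-LIN: coprime linear `r`-groups -/

set_option autoImplicit false

namespace Pool.Agent.R823.SA

namespace LINaux

open Module

section abs

variable {F W R : Type} [Field F] [AddCommGroup W] [Module F W] [Group R]

/-- simultaneous eigenspace -/
def E (A : Subgroup R) (T : R →* Module.End F W) (χ : A → F) : Submodule F W :=
  ⨅ a : A, (T a).eigenspace (χ a)

theorem mem_E (A : Subgroup R) (T : R →* Module.End F W) (χ : A → F) (w : W) :
    w ∈ E A T χ ↔ ∀ a : A, T a w = χ a • w := by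
  simp [E, Submodule.mem_iInf, Module.End.mem_eigenspace_iff]

variable [FiniteDimensional F W] [Finite R]

theorem semis (T : R →* Module.End F W) (hn : (Nat.card R : F) ≠ 0) (g : R) (μ : F) :
    (T g).maxGenEigenspace μ = (T g).eigenspace μ := by
  have hs : (T g).IsSemisimple := by
    refine Module.End.isSemisimple_of_squarefree_aeval_eq_zero
      (p := Polynomial.X ^ (Nat.card R) - 1) ?_ ?_
    · exact ((Polynomial.X_pow_sub_one_separable_iff).mpr hn).squarefree
    · rw [map_sub, map_pow, Polynomial.aeval_X, map_one, ← map_pow, pow_card_eq_one', map_one,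
        sub_self]
  exact hs.isFinitelySemisimple.maxGenEigenspace_eq_eigenspace μ

theorem E_eq (A : Subgroup R) (T : R →* Module.End F W) (hn : (Nat.card R : F) ≠ 0) (χ : A → F) :
    (⨅ a : A, (T a).maxGenEigenspace (χ a)) = E A T χ := by
  simp only [semis T hn]
  rfl

theorem E_top [IsAlgClosed F] (A : Subgroup R) (hA : ∀ x ∈ A, ∀ y ∈ A, x * y = y * x)
    (T : R →* Module.End F W) (hn : (Nat.card R : F) ≠ 0) : ⨆ χ : A → F, E A T χ = ⊤ := by
  have h := Module.End.iSup_iInf_maxGenEigenspace_eq_top_of_iSup_maxGenEigenspace_eq_top_of_commute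
    (fun a : A => T (a : R)) (fun a b _ => by
      show T a * T b = T b * T a
      rw [← map_mul, ← map_mul, hA a a.2 b b.2])
    (fun a => Module.End.iSup_maxGenEigenspace_eq_top _)
  rw [← h]
  exact iSup_congr fun χ => (E_eq A T hn χ).symm

theorem E_ind (A : Subgroup R) (hA : ∀ x ∈ A, ∀ y ∈ A, x * y = y * x)
    (T : R →* Module.End F W) (hn : (Nat.card R : F) ≠ 0) : iSupIndep (E A T) := by
  have h := Module.End.independent_iInf_maxGenEigenspace_of_forall_mapsTo
    (fun a : A => T (a : R)) (fun a b φ => Module.End.mapsTo_maxGenEigenspace_of_comm (by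
      show T b * T a = T a * T b
      rw [← map_mul, ← map_mul, hA a a.2 b b.2]) φ)
  have e : (fun χ : A → F => ⨅ a : A, (T (a : R)).maxGenEigenspace (χ a)) = E A T :=
    funext fun χ => E_eq A T hn χ
  rw [← e]
  exact h

/-- conjugation on the normal subgroup -/
def cj (A : Subgroup R) [hN : A.Normal] (g : R) (a : A) : A :=
  ⟨g⁻¹ * a * g, hN.conj_mem' a a.2 g⟩

omit [Finite R] in
theorem cj_one (A : Subgroup R) [A.Normal] (a : A) : cj A 1 a = a := by
  apply Subtype.ext; simp [cj]

omit [Finite R] in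
theorem cj_mul (A : Subgroup R) [A.Normal] (g h : R) (a : A) :
    cj A (g * h) a = cj A h (cj A g a) := by
  apply Subtype.ext
  simp only [cj, mul_inv_rev]
  group

omit [FiniteDimensional F W] [Finite R] in
theorem T_inv (T : R →* Module.End F W) (g : R) (w : W) : T g⁻¹ (T g w) = w := by
  have : (T g⁻¹ * T g) w = w := by rw [← map_mul, inv_mul_cancel, map_one]; rfl
  exact this

omit [FiniteDimensional F W] [Finite R] in
theorem T_mul (T : R →* Module.End F W) (g h : R) (w : W) : T (g * h) w = T g (T h w) := by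
  rw [map_mul]; rfl

omit [FiniteDimensional F W] [Finite R] in
theorem E_smul (A : Subgroup R) [A.Normal] (T : R →* Module.End F W) (g : R) (χ : A → F) (w : W)
    (hw : w ∈ E A T χ) : T g w ∈ E A T (fun a => χ (cj A g a)) := by
  rw [mem_E] at hw ⊢
  intro a
  have h1 := hw (cj A g a)
  have h2 : (a : R) * g = g * (cj A g a : A) := by
    simp only [cj]; group
  rw [← T_mul, h2, T_mul, h1, map_smul]

/-- the characters that occur -/
abbrev Ch (A : Subgroup R) (T : R →* Module.End F W) : Type := {χ : A → F // E A T χ ≠ ⊥}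

omit [FiniteDimensional F W] [Finite R] in
theorem ne_smul (A : Subgroup R) [A.Normal] (T : R →* Module.End F W) (g : R) (χ : A → F)
    (h : E A T χ ≠ ⊥) : E A T (fun a => χ (cj A g a)) ≠ ⊥ := by
  obtain ⟨w, hw, hw0⟩ := Submodule.exists_mem_ne_zero_of_ne_bot h
  intro hb
  have h1 := E_smul A T g χ w hw
  rw [hb, Submodule.mem_bot] at h1
  apply hw0
  rw [← T_inv T g w, h1, map_zero]

/-- the action on the characters -/
def act (A : Subgroup R) [A.Normal] (T : R →* Module.End F W) : MulAction R (Ch A T) where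
  smul g χ := ⟨fun a => χ.1 (cj A g a), ne_smul A T g χ.1 χ.2⟩
  one_smul χ := by
    apply Subtype.ext
    funext a
    show χ.1 (cj A 1 a) = χ.1 a
    rw [cj_one]
  mul_smul g h χ := by
    apply Subtype.ext
    funext a
    show χ.1 (cj A (g * h) a) = χ.1 (cj A h (cj A g a))
    rw [cj_mul]

omit [FiniteDimensional F W] [Finite R] in
theorem ext_top (A : Subgroup R) (T : R →* Module.End F W)
    (ht : ⨆ χ : A → F, E A T χ = ⊤) (f g : Module.End F W)
    (h : ∀ χ : A → F, E A T χ ≠ ⊥ → ∀ w ∈ E A T χ, f w = g w) : f = g := by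
  have : LinearMap.eqLocus f g = ⊤ := by
    rw [eq_top_iff, ← ht]
    refine iSup_le fun χ w hw => ?_
    by_cases hb : E A T χ = ⊥
    · rw [hb, Submodule.mem_bot] at hw
      rw [hw]; exact Submodule.zero_mem _
    · exact h χ hb w hw
  ext w
  have hw : w ∈ LinearMap.eqLocus f g := by rw [this]; exact Submodule.mem_top
  exact hw

theorem main [IsAlgClosed F] (T : R →* Module.End F W) (hT : Function.Injective T)
    (hn : (Nat.card R : F) ≠ 0) (d : ℕ) (hd : finrank F W ≤ d) (A : Subgroup R) [A.Normal]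
    (hA : ∀ x ∈ A, ∀ y ∈ A, x * y = y * x) (hc : ∀ g : R, (∀ x ∈ A, g * x = x * g) → g ∈ A) :
    A.index ≤ d.factorial ∧
      ∀ m : ℕ, 0 < m → Nat.card {x : R // x ∈ A ∧ x ^ m = 1} ≤ m ^ d := by
  have ht := E_top A hA T hn
  have hi := E_ind A hA T hn
  letI : Fintype (Ch A T) := iSupIndep.fintypeNeBotOfFiniteDimensional hi
  have hcard : Nat.card (Ch A T) ≤ d := by
    rw [Nat.card_eq_fintype_card]
    exact (iSupIndep.subtype_ne_bot_le_finrank hi).trans hd
  constructor
  · letI := act A T
    set π := MulAction.toPermHom R (Ch A T) with hπ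
    have hk : π.ker ≤ A := by
      intro g hg
      apply hc
      intro x hx
      apply hT
      refine ext_top A T ht _ _ fun χ hb w hw => ?_
      have h1 : π g = 1 := hg
      have h2 : π g ⟨χ, hb⟩ = ⟨χ, hb⟩ := by rw [h1]; rfl
      have h3 : (fun a => χ (cj A g a)) = χ := congrArg Subtype.val h2
      have h4 := E_smul A T g χ w hw
      rw [h3, mem_E] at h4
      rw [mem_E] at hw
      rw [T_mul, T_mul]
      have h5 := h4 ⟨x, hx⟩
      have h6 := hw ⟨x, hx⟩
      rw [h6, map_smul, h5]
    have h7 : A.index ≤ π.ker.index := Nat.le_of_dvd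
      (Nat.pos_of_ne_zero Subgroup.FiniteIndex.index_ne_zero) (Subgroup.index_dvd_of_le hk)
    refine h7.trans ?_
    rw [Subgroup.index_ker]
    calc Nat.card π.range ≤ Nat.card (Equiv.Perm (Ch A T)) :=
          Nat.card_le_card_of_injective _ Subtype.val_injective
      _ = (Nat.card (Ch A T)).factorial := Nat.card_perm
      _ ≤ d.factorial := Nat.factorial_le hcard
  · intro m hm
    have hroot : Nat.card {z : F // z ^ m = 1} ≤ m ∧ Finite {z : F // z ^ m = 1} := by
      classical
      have hset : {z : F | z ^ m = 1} ⊆ ((Polynomial.nthRoots m (1:F)).toFinset : Set F) := by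
        intro z hz
        rw [Finset.mem_coe, Multiset.mem_toFinset, Polynomial.mem_nthRoots hm]
        exact hz
      refine ⟨?_, (Finset.finite_toSet _).subset hset⟩
      have h8 := Nat.card_mono (Finset.finite_toSet _) hset
      refine h8.trans ?_
      rw [Nat.card_coe_set_eq, Set.ncard_coe_finset]
      exact (Multiset.toFinset_card_le _).trans (Polynomial.card_nthRoots m 1)
    haveI := hroot.2
    have hmem : ∀ (x : {x : R // x ∈ A ∧ x ^ m = 1}) (χ : Ch A T),
        (χ.1 ⟨x.1, x.2.1⟩) ^ m = 1 := by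
      intro x χ
      obtain ⟨w, hw, hw0⟩ := Submodule.exists_mem_ne_zero_of_ne_bot χ.2
      rw [mem_E] at hw
      have h9 : ∀ j : ℕ, T (x.1 ^ j) w = (χ.1 ⟨x.1, x.2.1⟩) ^ j • w := by
        intro j
        induction j with
        | zero => simp
        | succ j ih =>
          rw [pow_succ, T_mul, hw ⟨x.1, x.2.1⟩, map_smul, ih, smul_smul, pow_succ]
          congr 1
          ring
      have h10 : T (1 : R) w = (χ.1 ⟨x.1, x.2.1⟩) ^ m • w := by
        have e : x.1 ^ m = 1 := x.2.2
        calc T (1 : R) w = T (x.1 ^ m) w := by rw [e]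
          _ = _ := h9 m
      rw [map_one] at h10
      have h11 : ((χ.1 ⟨x.1, x.2.1⟩) ^ m - 1) • w = 0 := by
        rw [sub_smul, ← h10, one_smul]
        exact sub_self w
      exact sub_eq_zero.mp ((smul_eq_zero.mp h11).resolve_right hw0)
    let Θ : {x : R // x ∈ A ∧ x ^ m = 1} → (Ch A T → {z : F // z ^ m = 1}) :=
      fun x χ => ⟨χ.1 ⟨x.1, x.2.1⟩, hmem x χ⟩
    have hΘ : Function.Injective Θ := by
      intro x y hxy
      apply Subtype.ext
      apply hT
      refine ext_top A T ht _ _ fun χ hb w hw => ?_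
      rw [mem_E] at hw
      have h12 := congrArg Subtype.val (congrFun hxy ⟨χ, hb⟩)
      have h13 : χ ⟨x.1, x.2.1⟩ = χ ⟨y.1, y.2.1⟩ := h12
      have h14 := hw ⟨x.1, x.2.1⟩
      have h15 := hw ⟨y.1, y.2.1⟩
      show T x.1 w = T y.1 w
      rw [h14, h15, h13]
    calc Nat.card {x : R // x ∈ A ∧ x ^ m = 1} ≤ Nat.card (Ch A T → {z : F // z ^ m = 1}) :=
          Nat.card_le_card_of_injective Θ hΘ
      _ = Nat.card {z : F // z ^ m = 1} ^ Nat.card (Ch A T) := Nat.card_fun
      _ ≤ m ^ Nat.card (Ch A T) := Nat.pow_le_pow_left hroot.1 _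
      _ ≤ m ^ d := Nat.pow_le_pow_right hm hcard

end abs

/-- the dual action -/
theorem spec0 (p : ℕ) [hp : Fact p.Prime] (d : ℕ) (V : Type) [AddCommGroup V] [Module (ZMod p) V]
    [_root_.Finite V] (hd : Nat.card V = p ^ d) (G : Type) [Group G] (S : G → (V →ₗ[ZMod p] V))
    (hS1 : ∀ u, S 1 u = u) (hSm : ∀ g h u, S (g * h) u = S g (S h u))
    (hSi : ∀ g h, (∀ u, S g u = S h u) → g = h) :
    ∃ (W : Type) (_ : AddCommGroup W) (_ : Module (AlgebraicClosure (ZMod p)) W)
      (_ : FiniteDimensional (AlgebraicClosure (ZMod p)) W)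
      (T : G →* Module.End (AlgebraicClosure (ZMod p)) W),
      Function.Injective T ∧ finrank (AlgebraicClosure (ZMod p)) W ≤ d := by
  have hfd : Module.Finite (ZMod p) V := inferInstance
  letI := Fintype.ofFinite V
  set n := finrank (ZMod p) V with hn
  have hnd : n = d := by
    have h1 : Fintype.card V = Fintype.card (ZMod p) ^ n := Module.card_eq_pow_finrank
    rw [ZMod.card, ← Nat.card_eq_fintype_card, hd] at h1
    exact (Nat.pow_right_injective hp.out.two_le h1).symm
  let b : Basis (Fin n) (ZMod p) V := Module.finBasis (ZMod p) V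
  let eW : (Fin n → AlgebraicClosure (ZMod p)) ≃ₗ[AlgebraicClosure (ZMod p)]
    (V →ₗ[ZMod p] AlgebraicClosure (ZMod p)) := b.constr (AlgebraicClosure (ZMod p))
  have sep : ∀ u : V,
      (∀ l : V →ₗ[ZMod p] AlgebraicClosure (ZMod p), l u = 0) → u = 0 := by
    intro u hu
    apply b.repr.injective
    ext i
    have h3 := hu ((Algebra.linearMap (ZMod p) (AlgebraicClosure (ZMod p))).comp (b.coord i))
    have h4 : algebraMap (ZMod p) (AlgebraicClosure (ZMod p)) (b.coord i u) = 0 := h3
    have h5 : b.coord i u = 0 := by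
      apply (algebraMap (ZMod p) (AlgebraicClosure (ZMod p))).injective
      rw [h4, map_zero]
    rw [map_zero]
    exact h5
  refine ⟨V →ₗ[ZMod p] AlgebraicClosure (ZMod p), inferInstance, inferInstance,
    Module.Finite.equiv eW,
    { toFun := fun g =>
        { toFun := fun l => l.comp (S g⁻¹)
          map_add' := fun l l' => rfl
          map_smul' := fun c l => rfl }
      map_one' := ?_
      map_mul' := ?_ }, ?_, ?_⟩
  · ext l u
    show l (S 1⁻¹ u) = l u
    rw [inv_one, hS1]
  · intro g h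
    ext l u
    show l (S (g * h)⁻¹ u) = l (S h⁻¹ (S g⁻¹ u))
    rw [mul_inv_rev, hSm]
  · intro g h hgh
    have h6 : ∀ (l : V →ₗ[ZMod p] AlgebraicClosure (ZMod p)) (u : V),
        l (S g⁻¹ u) = l (S h⁻¹ u) := by
      intro l u
      have h7 := congrArg (fun f : Module.End (AlgebraicClosure (ZMod p))
        (V →ₗ[ZMod p] AlgebraicClosure (ZMod p)) => f l u) hgh
      exact h7
    have h8 : g⁻¹ = h⁻¹ := by
      apply hSi
      intro v
      have h9 := sep (S g⁻¹ v - S h⁻¹ v) (fun l => by rw [map_sub, h6, sub_self])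
      exact sub_eq_zero.mp h9
    exact inv_injective h8
  · rw [← eW.finrank_eq, Module.finrank_fin_fun, hnd]

theorem spec (p : ℕ) [hp : Fact p.Prime] (d : ℕ) (V : Type) [CommGroup V] [_root_.Finite V]
    (hV : ∀ v : V, v ^ p = 1) (hd : Nat.card V = p ^ d) :
    ∃ (W : Type) (_ : AddCommGroup W) (_ : Module (AlgebraicClosure (ZMod p)) W)
      (_ : FiniteDimensional (AlgebraicClosure (ZMod p)) W)
      (T : MulAut V →* Module.End (AlgebraicClosure (ZMod p)) W),
      Function.Injective T ∧ finrank (AlgebraicClosure (ZMod p)) W ≤ d := by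
  have hz : ∀ x : Additive V, p • x = 0 := fun x => by
    apply Additive.toMul.injective
    exact hV (Additive.toMul x)
  haveI hfa : _root_.Finite (Additive V) := inferInstanceAs (_root_.Finite V)
  have hd' : Nat.card (Additive V) = p ^ d := hd
  let M : Module (ZMod p) (Additive V) := AddCommGroup.zmodModule hz
  refine @spec0 p hp d (Additive V) _ M hfa hd' (MulAut V) _ (fun g =>
    AddMonoidHom.toZModLinearMap p (MonoidHom.toAdditive (MulEquiv.toMonoidHom g))) ?_ ?_ ?_
  · intro u; rfl
  · intro g h u; rfl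
  · intro g h hgh
    ext v
    have := hgh (Additive.ofMul v)
    exact Additive.ofMul.injective this

end LINaux

theorem sLIN : S_MAXAB → S_LIN := by
  intro hM p r hp hr hpr d V _ _ hV hd R hR
  haveI : Fact p.Prime := ⟨hp⟩
  haveI : Fact r.Prime := ⟨hr⟩
  haveI hfin : Finite (MulAut V) :=
    Finite.of_injective (fun g : MulAut V => (g : V → V)) DFunLike.coe_injective
  obtain ⟨A, hN, hA, hc⟩ := hM r hr R hR
  obtain ⟨W, i1, i2, i3, T, hT, hfr⟩ := LINaux.spec p d V hV hd
  have hn : (Nat.card R : AlgebraicClosure (ZMod p)) ≠ 0 := by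
    obtain ⟨k, hk⟩ := IsPGroup.iff_card.mp hR
    rw [hk, Nat.cast_pow]
    apply pow_ne_zero
    intro h
    rw [CharP.cast_eq_zero_iff (AlgebraicClosure (ZMod p)) p r] at h
    exact hpr ((Nat.prime_dvd_prime_iff_eq hp hr).mp h)
  have h := LINaux.main (T.comp R.subtype) (hT.comp R.subtype_injective) hn d hfr A hA hc
  exact ⟨A, hN, hA, h.1, h.2⟩

end Pool.Agent.R823.SA
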