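import Pool.Agent.R823.SA.Stm

set_option autoImplicit false

namespace Pool.Agent.R823.SA

theorem main_tame_mono {S : Type} [Group S] {a c a' c' : ℕ} (h : Tame S a c) (ha : a ≤ a')
    (hc : c ≤ c') : Tame S a' c' := by
  obtain ⟨A, h1, h2, h3, h4⟩ := h
  exact ⟨A, h1, h2, h3.trans hc, fun m hm => (h4 m hm).trans (Nat.pow_le_pow_right hm ha)⟩

theorem sMAIN : S_IND → S_TX → S_MAIN := by
  intro hI hT G _ _ _
  classical
  choose a c hac using hT
  let a' : ℕ → ℕ → ℕ := fun r k => if h : r.Prime then a r h k else 0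
  let c' : ℕ → ℕ → ℕ := fun r k => if h : r.Prime then c r h k else 0
  let aa : ℕ → ℕ := fun k => ∑ r ∈ Finset.range (Nat.card G + 1), a' r k
  let cc : ℕ → ℕ := fun k => ∑ r ∈ Finset.range (Nat.card G + 1), c' r k
  choose K hK using fun k => hI G (aa k) (cc k)
  refine ⟨K, fun X _ _ => ?_⟩
  have hfin : Finite (MulAut X) :=
    Finite.of_injective (fun e : MulAut X => (e : X → X)) DFunLike.coe_injective
  refine hK _ (MulAut X) ?_
  intro r hr hdvd S hS
  have h1 := hac r hr (Nat.primeFactorsList (Nat.card X)).length X rfl S hS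
  have hmem : r ∈ Finset.range (Nat.card G + 1) :=
    Finset.mem_range.2 (Nat.lt_succ_of_le (Nat.le_of_dvd Nat.card_pos hdvd))
  have ea : a' r (Nat.primeFactorsList (Nat.card X)).length =
      a r hr (Nat.primeFactorsList (Nat.card X)).length := dif_pos hr
  have ec : c' r (Nat.primeFactorsList (Nat.card X)).length =
      c r hr (Nat.primeFactorsList (Nat.card X)).length := dif_pos hr
  refine main_tame_mono h1 ?_ ?_
  · rw [← ea]
    exact Finset.single_le_sum
      (f := fun r => a' r (Nat.primeFactorsList (Nat.card X)).length)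
      (fun i _ => Nat.zero_le _) hmem
  · rw [← ec]
    exact Finset.single_le_sum
      (f := fun r => c' r (Nat.primeFactorsList (Nat.card X)).length)
      (fun i _ => Nat.zero_le _) hmem

end Pool.Agent.R823.SA
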