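import Pool.Agent.R823.SA.Stm

namespace Pool.Agent.R823.SA

open Subgroup MulAction

theorem inf_center_aux (r : ℕ) (hr : r.Prime) (G : Type) [Group G] [Finite G] (hG : IsPGroup r G)
    (N : Subgroup G) [N.Normal] (hN : N ≠ ⊥) : ∃ x ∈ N, x ≠ 1 ∧ ∀ g : G, g * x = x * g := by
  haveI : Fact r.Prime := ⟨hr⟩
  have hC : IsPGroup r (ConjAct G) := hG
  haveI : Nontrivial N := (Subgroup.nontrivial_iff_ne_bot N).2 hN
  have hNp : IsPGroup r N := hG.to_subgroup N
  have hd : r ∣ Nat.card N := by
    obtain ⟨n, hn⟩ := (IsPGroup.iff_card).1 hNp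
    rcases Nat.eq_zero_or_pos n with h0 | h0
    · subst h0
      rw [pow_zero] at hn
      have := Finite.one_lt_card (α := N)
      omega
    · rw [hn]; exact dvd_pow_self _ h0.ne'
  have hf : (1 : N) ∈ fixedPoints (ConjAct G) N := by
    intro g
    exact smul_one g
  obtain ⟨b, hb, hb1⟩ := hC.exists_fixed_point_of_prime_dvd_card_of_fixed_point (α := N) hd hf
  refine ⟨b, b.2, ?_, ?_⟩
  · intro h
    exact hb1 (Subtype.ext h.symm)
  · intro g
    have := hb (ConjAct.toConjAct g)
    have h2 := congrArg Subtype.val this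
    rw [ConjAct.Subgroup.val_conj_smul] at h2
    rw [ConjAct.smul_def, ConjAct.ofConjAct_toConjAct] at h2
    rw [mul_inv_eq_iff_eq_mul] at h2
    exact h2

theorem sMAXAB : S_MAXAB := by
  intro r hr R _ _ hR
  let 𝒮 : Set (Subgroup R) := {A | A.Normal ∧ ∀ x ∈ A, ∀ y ∈ A, x * y = y * x}
  have hfin : 𝒮.Finite := Set.toFinite _
  have hne : 𝒮.Nonempty := ⟨⊥, inferInstance, by
    intro x hx y hy
    rw [Subgroup.mem_bot] at hx hy
    simp [hx, hy]⟩
  obtain ⟨A, hA⟩ := hfin.exists_maximal hne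
  obtain ⟨hAn, hAc⟩ := hA.1
  refine ⟨A, hAn, hAc, ?_⟩
  by_contra hcon
  push_neg at hcon
  obtain ⟨g, hg, hgA⟩ := hcon
  have hgC : g ∈ Subgroup.centralizer (A : Set R) := by
    rw [Subgroup.mem_centralizer_iff]
    intro x hx
    exact (hg x hx).symm
  set D := Subgroup.centralizer (A : Set R) with hD
  haveI : D.Normal := by
    rw [hD]; infer_instance
  let q := QuotientGroup.mk' A
  haveI hNn : (D.map q).Normal := Subgroup.Normal.map inferInstance q (QuotientGroup.mk'_surjective A)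
  have hNne : D.map q ≠ ⊥ := by
    intro h
    rw [Subgroup.map_eq_bot_iff, QuotientGroup.ker_mk'] at h
    exact hgA (h hgC)
  obtain ⟨y, hyN, hy1, hyc⟩ := inf_center_aux r hr (R ⧸ A) (hR.to_quotient A) (D.map q) hNne
  obtain ⟨x, hxD, rfl⟩ := hyN
  have hxA : x ∉ A := by
    intro h
    exact hy1 ((QuotientGroup.eq_one_iff x).2 h)
  have hxD' : ∀ a ∈ A, a * x = x * a := by
    intro a ha
    exact (Subgroup.mem_centralizer_iff.1 hxD) a ha
  -- the subgroup generated by A and x
  let B : Subgroup R := A ⊔ Subgroup.zpowers x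
  have hBn : B.Normal := by
    constructor
    intro b hb g
    have h1 : q (g * b * g⁻¹) = q b := by
      have hbz : q b ∈ Subgroup.zpowers (q x) := by
        have : B.map q ≤ Subgroup.zpowers (q x) := by
          rw [Subgroup.map_sup, MonoidHom.map_zpowers]
          apply sup_le _ le_rfl
          have : A.map q = ⊥ := by
            rw [Subgroup.map_eq_bot_iff, QuotientGroup.ker_mk']
          rw [this]; exact bot_le
        exact this (Subgroup.mem_map_of_mem q hb)
      obtain ⟨n, hn⟩ := Subgroup.mem_zpowers_iff.1 hbz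
      rw [map_mul, map_mul, map_inv, ← hn]
      have hc : Commute (q g) (q x) := hyc (q g)
      have := (hc.zpow_right n)
      rw [this.eq, mul_inv_cancel_right]
    have h2 : b⁻¹ * (g * b * g⁻¹) ∈ A := by
      rw [← QuotientGroup.eq_one_iff]
      change q (b⁻¹ * (g * b * g⁻¹)) = 1
      rw [map_mul, h1, map_inv, inv_mul_cancel]
    have h3 : g * b * g⁻¹ = b * (b⁻¹ * (g * b * g⁻¹)) := by group
    rw [h3]
    exact B.mul_mem hb ((le_sup_left : A ≤ B) h2)
  have hBc : ∀ u ∈ B, ∀ v ∈ B, u * v = v * u := by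
    have hBcl : B = Subgroup.closure ((A : Set R) ∪ {x}) := by
      rw [Subgroup.closure_union, Subgroup.closure_eq, ← Subgroup.zpowers_eq_closure]
    have hk : ∀ u ∈ ((A : Set R) ∪ {x}), ∀ v ∈ ((A : Set R) ∪ {x}), u * v = v * u := by
      rintro u (hu | hu) v (hv | hv)
      · exact hAc u hu v hv
      · rw [Set.mem_singleton_iff.1 hv]; exact hxD' u hu
      · rw [Set.mem_singleton_iff.1 hu]; exact (hxD' v hv).symm
      · rw [Set.mem_singleton_iff.1 hu, Set.mem_singleton_iff.1 hv]
    letI := Subgroup.closureCommGroupOfComm hk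
    intro u hu v hv
    rw [hBcl] at hu hv
    have := mul_comm (⟨u, hu⟩ : Subgroup.closure ((A : Set R) ∪ {x})) ⟨v, hv⟩
    exact congrArg Subtype.val this
  have hle : B ≤ A := hA.2 ⟨hBn, hBc⟩ le_sup_left
  exact hxA (hle ((le_sup_right : Subgroup.zpowers x ≤ B) (Subgroup.mem_zpowers x)))

end Pool.Agent.R823.SA
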