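import Pool.Agent.R823.SA.Stm

/-! Project SA: coprime action on a `p`-group. -/

set_option autoImplicit false

namespace Pool.Agent.R823.SA

namespace PGRAux

theorem mono {S : Type} [Group S] {a c a' c' : ℕ} (h : Tame S a c) (ha : a ≤ a') (hc : c ≤ c') :
    Tame S a' c' := by
  obtain ⟨A, h1, h2, h3, h4⟩ := h
  exact ⟨A, h1, h2, h3.trans hc, fun m hm => (h4 m hm).trans (Nat.pow_le_pow_right hm ha)⟩

/-- restriction of automorphisms -/
def restr {P : Type} [Group P] (N : Subgroup P) (h : ∀ α : MulAut P, ∀ x ∈ N, α x ∈ N) :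
    MulAut P →* MulAut N where
  toFun α :=
    { toFun := fun x => ⟨α x, h α x x.2⟩
      invFun := fun x => ⟨α⁻¹ x, h α⁻¹ x x.2⟩
      left_inv := fun x => Subtype.ext (MulAut.inv_apply_self P α x)
      right_inv := fun x => Subtype.ext (MulAut.apply_inv_self P α x)
      map_mul' := fun x y => Subtype.ext (map_mul α (x : P) (y : P)) }
  map_one' := by ext x; rfl
  map_mul' α β := by ext x; rfl

theorem map_eq {P : Type} [Group P] (N : Subgroup P) (h : ∀ α : MulAut P, ∀ x ∈ N, α x ∈ N)
    (α : MulAut P) : N.map (α : P →* P) = N := by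
  apply le_antisymm
  · rintro _ ⟨x, hx, rfl⟩
    exact h α x hx
  · intro x hx
    exact ⟨α⁻¹ x, h α⁻¹ x hx, MulAut.apply_inv_self P α x⟩

/-- action on the quotient -/
def quo {P : Type} [Group P] (N : Subgroup P) [N.Normal]
    (h : ∀ α : MulAut P, ∀ x ∈ N, α x ∈ N) : MulAut P →* MulAut (P ⧸ N) where
  toFun α := QuotientGroup.congr N N α (map_eq N h α)
  map_one' := by
    ext x
    induction x using QuotientGroup.induction_on with
    | H z => rfl
  map_mul' α β := by
    ext x
    induction x using QuotientGroup.induction_on with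
    | H z => rfl

theorem faithful {P : Type} [Group P] [Finite P] {p r d : ℕ} (hp : p.Prime) (hr : r.Prime)
    (hpr : p ≠ r) (hcard : Nat.card P = p ^ d) (N : Subgroup P) (α : MulAut P) {k : ℕ}
    (hα : α ^ (r ^ k) = 1) (h1 : ∀ x ∈ N, α x = x) (h2 : ∀ x, x⁻¹ * α x ∈ N) : α = 1 := by
  ext x
  set t := x⁻¹ * α x with ht
  have htN : t ∈ N := h2 x
  have hx : α x = x * t := by rw [ht, mul_inv_cancel_left]
  have h3 : ∀ m : ℕ, (α ^ m) x = x * t ^ m := by
    intro m
    induction m with
    | zero => rw [pow_zero, pow_zero, mul_one]; rfl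
    | succ m ih =>
      rw [pow_succ', MulAut.mul_apply, ih, map_mul, hx, map_pow, h1 t htN, mul_assoc,
        ← pow_succ']
  have h4 := h3 (r ^ k)
  rw [hα] at h4
  have h5 : t ^ (r ^ k) = 1 := by
    have : x * 1 = x * t ^ (r ^ k) := by rw [mul_one]; exact h4
    exact (mul_left_cancel this).symm
  have h6 : t ^ (p ^ d) = 1 := by
    rw [← hcard]
    exact pow_card_eq_one'
  have h7 : Nat.Coprime (r ^ k) (p ^ d) :=
    Nat.Coprime.pow _ _ ((Nat.coprime_primes hr hp).2 (Ne.symm hpr))
  have h8 : orderOf t ∣ 1 := by
    rw [← h7]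
    exact Nat.dvd_gcd (orderOf_dvd_of_pow_eq_one h5) (orderOf_dvd_of_pow_eq_one h6)
  have h9 : t = 1 := orderOf_eq_one_iff.1 (Nat.dvd_one.1 h8)
  rw [hx, h9, mul_one]
  rfl

theorem step (hP : S_PROD) {p r : ℕ} (hp : p.Prime) (hr : r.Prime) (hpr : p ≠ r) (d : ℕ)
    (ih : ∀ m < d, ∀ (P : Type) [Group P] [Finite P], Nat.card P = p ^ m →
      ∀ R : Subgroup (MulAut P), IsPGroup r R → Tame R m (m.factorial ^ m))
    (P : Type) [Group P] [Finite P] (hcard : Nat.card P = p ^ d) (R : Subgroup (MulAut P))
    (hR : IsPGroup r R) (N : Subgroup P) (hN : N.Normal)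
    (h : ∀ α : MulAut P, ∀ x ∈ N, α x ∈ N) (hb : N ≠ ⊥) (ht : N ≠ ⊤) :
    Tame R d (d.factorial ^ d) := by
  have hc := Subgroup.card_eq_card_quotient_mul_card_subgroup N
  rw [hcard] at hc
  obtain ⟨d1, -, hd1⟩ := (Nat.dvd_prime_pow hp).1 (Dvd.intro_left _ hc.symm)
  obtain ⟨d2, -, hd2⟩ := (Nat.dvd_prime_pow hp).1 (Dvd.intro _ hc.symm)
  rw [hd1, hd2, ← pow_add] at hc
  have hd : d = d2 + d1 := Nat.pow_right_injective hp.two_le hc
  have h10 : d1 ≠ 0 := by
    rintro rfl
    rw [pow_zero] at hd1
    exact hb (Subgroup.card_eq_one.1 hd1)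
  have h20 : d2 ≠ 0 := by
    rintro rfl
    rw [pow_zero] at hd2
    exact ht (Subgroup.index_eq_one.1 hd2)
  haveI : Finite (MulAut P) :=
    Finite.of_injective (fun α : MulAut P => (α : P → P)) DFunLike.coe_injective
  let H : Bool → Type := fun b => match b with
    | true => MulAut N
    | false => MulAut (P ⧸ N)
  letI iH : ∀ b, Group (H b) := fun b => match b with
    | true => inferInstanceAs (Group (MulAut N))
    | false => inferInstanceAs (Group (MulAut (P ⧸ N)))
  let ρ : ∀ b, R →* H b := fun b => match b with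
    | true => (restr N h).comp R.subtype
    | false => (quo N h).comp R.subtype
  have hker : ⨅ b, (ρ b).ker = ⊥ := by
    rw [eq_bot_iff]
    intro α hα
    have e1 : (restr N h) (α : MulAut P) = 1 := (Subgroup.mem_iInf.1 hα true)
    have e2 : (quo N h) (α : MulAut P) = 1 := (Subgroup.mem_iInf.1 hα false)
    obtain ⟨k, hk⟩ := hR α
    rw [Subgroup.mem_bot]
    apply Subtype.ext
    refine faithful hp hr hpr hcard N (α : MulAut P) (k := k) ?_ ?_ ?_
    · have := congrArg (Subtype.val) hk
      exact this
    · intro x hx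
      have := DFunLike.congr_fun e1 (⟨x, hx⟩ : N)
      exact congrArg Subtype.val this
    · intro x
      have := DFunLike.congr_fun e2 (QuotientGroup.mk x : P ⧸ N)
      have e3 : (QuotientGroup.mk ((α : MulAut P) x) : P ⧸ N) = QuotientGroup.mk x := this
      exact QuotientGroup.eq.1 e3.symm
  have key := hP Bool R H ρ hker (fun b => match b with | true => d1 | false => d2)
    (fun b => match b with | true => d1.factorial ^ d1 | false => d2.factorial ^ d2) (by
      intro b
      cases b with
      | true =>
        exact ih d1 (by omega) N hd1 _ (hR.of_surjective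
          ((restr N h).comp R.subtype).rangeRestrict (MonoidHom.rangeRestrict_surjective _))
      | false =>
        exact ih d2 (by omega) (P ⧸ N) hd2 _ (hR.of_surjective
          ((quo N h).comp R.subtype).rangeRestrict (MonoidHom.rangeRestrict_surjective _)))
  refine mono key ?_ ?_
  · rw [Fintype.sum_bool]
    show d1 + d2 ≤ d
    omega
  · rw [Fintype.prod_bool]
    show d1.factorial ^ d1 * d2.factorial ^ d2 ≤ d.factorial ^ d
    have e1 : d1.factorial ≤ d.factorial := Nat.factorial_le (by omega)
    have e2 : d2.factorial ≤ d.factorial := Nat.factorial_le (by omega)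
    calc d1.factorial ^ d1 * d2.factorial ^ d2 ≤ d.factorial ^ d1 * d.factorial ^ d2 :=
          Nat.mul_le_mul (Nat.pow_le_pow_left e1 _) (Nat.pow_le_pow_left e2 _)
      _ = d.factorial ^ d := by rw [← pow_add, hd, Nat.add_comm]

end PGRAux

open PGRAux in
/-- coprime action on a `p`-group -/
theorem sPGR (hL : S_LIN) (hP : S_PROD) : S_PGR := by
  intro p r hp hr hpr d
  induction d using Nat.strong_induction_on with
  | _ d ih =>
    intro P _ _ hcard R hR
    have hstep := step hP hp hr hpr d (fun m hm P _ _ hc R hR => ih m hm P hc R hR) P hcard R hR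
    by_cases hcomm : ∀ x y : P, x * y = y * x
    · by_cases hel : ∀ v : P, v ^ p = 1
      · letI : CommGroup P := { (inferInstance : Group P) with mul_comm := hcomm }
        refine mono (hL p r hp hr hpr d P hel hcard R hR) le_rfl ?_
        rcases Nat.eq_zero_or_pos d with rfl | hd
        · simp
        · exact Nat.le_self_pow hd.ne' _
      · push Not at hel
        obtain ⟨v, hv⟩ := hel
        let N : Subgroup P :=
          { carrier := {x | ∃ y, y ^ p = x}
            mul_mem' := by
              rintro _ _ ⟨a, rfl⟩ ⟨b, rfl⟩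
              exact ⟨a * b, Commute.mul_pow (hcomm a b) p⟩
            one_mem' := ⟨1, one_pow p⟩
            inv_mem' := by
              rintro _ ⟨a, rfl⟩
              exact ⟨a⁻¹, inv_pow a p⟩ }
        refine hstep N ⟨fun x hx g => ?_⟩ ?_ ?_ ?_
        · rw [hcomm g x, mul_assoc, mul_inv_cancel, mul_one]
          exact hx
        · rintro α _ ⟨y, rfl⟩
          exact ⟨α y, (map_pow α y p).symm⟩
        · intro hN
          have : v ^ p ∈ N := ⟨v, rfl⟩
          rw [hN, Subgroup.mem_bot] at this
          exact hv this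
        · intro hN
          have hsur : Function.Surjective fun y : P => y ^ p := fun x => by
            have : x ∈ N := by rw [hN]; exact Subgroup.mem_top x
            exact this
          have hinj := Finite.injective_iff_surjective.2 hsur
          have hd : d ≠ 0 := by
            rintro rfl
            rw [pow_zero] at hcard
            have hs : Subsingleton P := (Nat.card_eq_one_iff_unique.1 hcard).1
            exact hv (Subsingleton.elim _ _)
          haveI := Fact.mk hp
          obtain ⟨x, hx⟩ := exists_prime_orderOf_dvd_card' (G := P) p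
            (by rw [hcard]; exact dvd_pow_self p hd)
          have h1 : x ^ p = 1 := by rw [← hx]; exact pow_orderOf_eq_one x
          have h2 : x = 1 := hinj (by
            show x ^ p = 1 ^ p
            rw [h1, one_pow])
          rw [h2, orderOf_one] at hx
          exact hp.one_lt.ne hx
    · push Not at hcomm
      obtain ⟨x, y, hxy⟩ := hcomm
      refine hstep (Subgroup.center P) inferInstance ?_ ?_ ?_
      · intro α z hz
        rw [Subgroup.mem_center_iff] at hz ⊢
        intro g
        have h1 := congrArg α (hz (α⁻¹ g))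
        rw [map_mul, map_mul, MulAut.apply_inv_self] at h1
        exact h1
      · haveI := Fact.mk hp
        haveI : Nontrivial P := ⟨x, y, fun h => hxy (by rw [h])⟩
        exact (IsPGroup.bot_lt_center (IsPGroup.of_card hcard)).ne'
      · intro hN
        have : x ∈ Subgroup.center P := by rw [hN]; exact Subgroup.mem_top x
        exact hxy ((Subgroup.mem_center_iff.1 this y).symm)

end Pool.Agent.R823.SA
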