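import Pool.Agent.R823.SA.Stm

/-! Piece SA-PROD of project SA (MP_5f7865_al): jointly faithful tame images. -/

set_option autoImplicit false

namespace Pool.Agent.R823.SA

theorem sPROD : S_PROD := by
  intro ι _ R _ _ H _ ρ hker a c hT
  choose A hN hab hind hcard using hT
  refine ⟨⨅ i, (A i).comap (ρ i).rangeRestrict, ?_, ?_, ?_, ?_⟩
  · exact Subgroup.normal_iInf_normal fun i => (hN i).comap _
  · intro x hx y hy
    rw [Subgroup.mem_iInf] at hx hy
    have h1 : x * y * (y * x)⁻¹ ∈ ⨅ i, (ρ i).ker := by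
      rw [Subgroup.mem_iInf]
      intro i
      rw [MonoidHom.mem_ker]
      have h2 := hab i _ (hx i) _ (hy i)
      have h3 : ρ i x * ρ i y = ρ i y * ρ i x := by
        have := congrArg Subtype.val h2
        simpa using this
      rw [map_mul, map_inv, map_mul, map_mul, h3, mul_inv_cancel]
    rw [hker, Subgroup.mem_bot] at h1
    exact mul_inv_eq_one.1 h1
  · calc (⨅ i, (A i).comap (ρ i).rangeRestrict).index
        ≤ ∏ i, ((A i).comap (ρ i).rangeRestrict).index := Subgroup.index_iInf_le _
      _ ≤ ∏ i, c i := by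
          apply Finset.prod_le_prod'
          intro i _
          rw [Subgroup.index_comap_of_surjective _ (ρ i).rangeRestrict_surjective]
          exact hind i
  · intro m hm
    haveI : ∀ i, Finite (ρ i).range := fun i =>
      Finite.of_surjective _ (ρ i).rangeRestrict_surjective
    let f : {x : R // x ∈ (⨅ i, (A i).comap (ρ i).rangeRestrict) ∧ x ^ m = 1} →
        ∀ i, {x : (ρ i).range // x ∈ A i ∧ x ^ m = 1} := fun x i =>
      ⟨(ρ i).rangeRestrict x.1, (Subgroup.mem_iInf.1 x.2.1) i, by
        rw [← map_pow, x.2.2, map_one]⟩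
    have hf : Function.Injective f := by
      intro x y hxy
      apply Subtype.ext
      have h1 : x.1 * (y.1)⁻¹ ∈ ⨅ i, (ρ i).ker := by
        rw [Subgroup.mem_iInf]
        intro i
        have h2 := congrArg (fun z => ((z i).1 : H i)) hxy
        have h3 : ρ i x.1 = ρ i y.1 := by simpa [f] using h2
        rw [MonoidHom.mem_ker, map_mul, map_inv, h3, mul_inv_cancel]
      rw [hker, Subgroup.mem_bot] at h1
      exact mul_inv_eq_one.1 h1
    calc Nat.card {x : R // x ∈ (⨅ i, (A i).comap (ρ i).rangeRestrict) ∧ x ^ m = 1}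
        ≤ Nat.card (∀ i, {x : (ρ i).range // x ∈ A i ∧ x ^ m = 1}) :=
          Nat.card_le_card_of_injective f hf
      _ = ∏ i, Nat.card {x : (ρ i).range // x ∈ A i ∧ x ^ m = 1} := Nat.card_pi
      _ ≤ ∏ i, m ^ a i := Finset.prod_le_prod' fun i _ => hcard i m hm
      _ = m ^ ∑ i, a i := Finset.prod_pow_eq_pow_sum _ _ _

end Pool.Agent.R823.SA
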