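import Pool.Agent.R823.SA.Stm

/-! SA-SYL (written by helper637): an `r`-group of automorphisms of a finite group has a subgroup
of small index normalizing a Sylow `p`-subgroup. -/

namespace Pool.Agent.R823.SA

open MulAction

/-- if `r ^ n` divides `m ≠ 0` then `n` is at most the number of prime factors of `m`. -/
theorem syl_len {r n m : ℕ} (hr : r.Prime) (hm : m ≠ 0) (h : r ^ n ∣ m) :
    n ≤ (Nat.primeFactorsList m).length := by
  have h1 := (Nat.primeFactorsList_sublist_of_dvd h hm).length_le
  rwa [hr.primeFactorsList_pow, List.length_replicate] at h1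

theorem sSYL : S_SYL := by
  intro r p hr hp X _ _ R hR
  have : Fact r.Prime := ⟨hr⟩
  have : Fact p.Prime := ⟨hp⟩
  have : Finite (MulAut X) := Finite.of_injective (fun f : MulAut X => (f : X → X))
    (fun f g h => MulEquiv.ext (fun x => congrFun h x))
  set v := (Nat.primeFactorsList (Nat.card X)).length with hv
  -- an orbit of small size
  have key : ∃ P : Sylow p X, ¬ r ^ (v + 1) ∣ Nat.card (orbit R P) := by
    by_contra hcon
    push Not at hcon
    have h1 : r ^ (v + 1) ∣ Nat.card (Sylow p X) := by
      classical
      have : Fintype (Quotient (orbitRel R (Sylow p X))) := Fintype.ofFinite _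
      rw [Nat.card_congr (selfEquivSigmaOrbits R (Sylow p X)), Nat.card_sigma]
      exact Finset.dvd_sum (fun ω _ => hcon _)
    have h2 : r ^ (v + 1) ∣ Nat.card X := by
      have P0 : Sylow p X := default
      exact h1.trans ((P0.card_dvd_index).trans (Subgroup.index_dvd_card _))
    have h3 := syl_len hr (Nat.card_pos.ne') h2
    omega
  obtain ⟨P, hP⟩ := key
  refine ⟨P.toSubgroup, stabilizer R P, ⟨P, rfl⟩, ?_, ?_⟩
  · obtain ⟨n, hn⟩ := hR.card_orbit P
    rw [hn] at hP
    have hnv : n ≤ v := by
      by_contra hlt
      exact hP (pow_dvd_pow r (by omega))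
    have hidx : (stabilizer R P).index = Nat.card (orbit R P) := by
      rw [index_stabilizer]
      rfl
    rw [hidx, hn]
    exact Nat.pow_le_pow_right hr.pos hnv
  · intro ρ hρ
    have h1 : ρ • P = P := hρ
    have h2 : ((ρ • P : Sylow p X) : Subgroup X) = P.toSubgroup := by rw [h1]
    conv_rhs => rw [← h2]
    rfl

end Pool.Agent.R823.SA
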