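import Pool.Agent.R823.SA.Stm

/-! TX: `r`-groups of automorphisms of a finite group are tame. -/

namespace Pool.Agent.R823.SA

namespace TXaux

lemma tame_mono {S : Type} [Group S] {a a' c c' : ℕ} (ha : a ≤ a') (hc : c ≤ c')
    (h : Tame S a c) : Tame S a' c' := by
  obtain ⟨A, h1, h2, h3, h4⟩ := h
  exact ⟨A, h1, h2, h3.trans hc, fun m hm => (h4 m hm).trans (Nat.pow_le_pow_right hm ha)⟩

lemma tame_card (S : Type) [Group S] [Finite S] : Tame S 0 (Nat.card S) := by
  refine ⟨⊥, inferInstance, ?_, ?_, ?_⟩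
  · intro x hx y hy
    rw [Subgroup.mem_bot] at hx hy
    rw [hx, hy]
  · rw [Subgroup.index_bot]
  · intro m hm
    rw [pow_zero]
    have h : Subsingleton {x : S // x ∈ (⊥ : Subgroup S) ∧ x ^ m = 1} :=
      ⟨fun x y => Subtype.ext (by
        have h1 := Subgroup.mem_bot.1 x.2.1
        have h2 := Subgroup.mem_bot.1 y.2.1
        rw [h1, h2])⟩
    exact Finite.card_le_one_iff_subsingleton.2 h

/-- restriction of automorphisms -/
def res {X : Type} [Group X] (R : Subgroup (MulAut X)) (R0 : Subgroup R) (P : Subgroup X)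
    (h : ∀ ρ ∈ R0, ∀ x ∈ P, (ρ : MulAut X) x ∈ P) : R0 →* MulAut P where
  toFun ρ :=
    { toFun := fun x => ⟨((ρ : R) : MulAut X) x, h ρ.1 ρ.2 x x.2⟩
      invFun := fun x => ⟨(((ρ⁻¹ : R0) : R) : MulAut X) x, h (ρ⁻¹ : R0).1 (ρ⁻¹ : R0).2 x x.2⟩
      left_inv := fun x => Subtype.ext (by simp)
      right_inv := fun x => Subtype.ext (by simp)
      map_mul' := fun x y => Subtype.ext (by simp) }
  map_one' := by
    ext x
    rfl
  map_mul' a b := by
    ext x
    rfl

lemma res_apply {X : Type} [Group X] (R : Subgroup (MulAut X)) (R0 : Subgroup R) (P : Subgroup X)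
    (h : ∀ ρ ∈ R0, ∀ x ∈ P, (ρ : MulAut X) x ∈ P) (ρ : R0) (x : P) :
    ((res R R0 P h ρ x : P) : X) = ((ρ : R) : MulAut X) x := rfl

end TXaux

open TXaux in
theorem sTX : S_SYL → S_PROD → S_CORE → S_PGR → S_TX := by
  classical
  intro hSYL hPROD hCORE hPGR r hr k
  set c0 : ℕ := k.factorial ^ k + (r ^ k) ^ (r ^ k) with hc0
  have hc0pos : 0 < c0 := by
    have : 0 < k.factorial ^ k := pow_pos (Nat.factorial_pos k) k
    omega
  set I0 : ℕ := (r ^ k) ^ k with hI0
  have hrpos : 0 < r := hr.pos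
  have hI0pos : 0 < I0 := pow_pos (pow_pos hrpos k) k
  refine ⟨k * k, (c0 ^ k * I0) ^ I0, ?_⟩
  intro X _ _ hk R hR
  have hXpos : Nat.card X ≠ 0 := Nat.card_pos.ne'
  let ι : Type := {p : ℕ // p ∈ (Nat.card X).primeFactors}
  have hιp : ∀ i : ι, (i : ℕ).Prime := fun i => Nat.prime_of_mem_primeFactors i.2
  have hιc : Fintype.card ι ≤ k := by
    rw [← hk]
    have h1 : Fintype.card ι = (Nat.card X).primeFactors.card := by
      exact Fintype.card_coe _
    rw [h1, Nat.primeFactors]
    exact List.toFinset_card_le _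
  have hd : ∀ p : ℕ, (Nat.card X).factorization p ≤ k := by
    intro p
    rw [← hk, ← Nat.primeFactorsList_count_eq]
    exact List.count_le_length
  have hfinA : Finite (MulAut X) := Finite.of_injective MulEquiv.toEquiv MulEquiv.toEquiv_injective
  choose P R1 hP hidx hst using fun i : ι => hSYL r (i : ℕ) hr (hιp i) X R hR
  set R0 : Subgroup R := ⨅ i, R1 i with hR0
  have hidx0 : R0.index ≤ I0 := by
    calc R0.index ≤ ∏ i, (R1 i).index := Subgroup.index_iInf_le _
      _ ≤ ∏ _i : ι, r ^ k := Finset.prod_le_prod' fun i _ => by rw [← hk]; exact hidx i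
      _ = (r ^ k) ^ Fintype.card ι := by rw [Finset.prod_const, Finset.card_univ]
      _ ≤ (r ^ k) ^ k := Nat.pow_le_pow_right (pow_pos hrpos k) hιc
  have hstab : ∀ i, ∀ ρ ∈ R0, ∀ x ∈ P i, (ρ : MulAut X) x ∈ P i := by
    intro i ρ hρ x hx
    have h1 : ρ ∈ R1 i := (iInf_le R1 i) hρ
    have h2 := hst i ρ h1
    rw [← h2]
    exact ⟨x, hx, rfl⟩
  have hcardP : ∀ i, Nat.card (P i) = (i : ℕ) ^ (Nat.card X).factorization (i : ℕ) := by
    intro i
    have : Fact (i : ℕ).Prime := ⟨hιp i⟩
    obtain ⟨P', hP'⟩ := hP i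
    rw [hP']
    exact P'.card_eq_multiplicity
  let ρ : ∀ i, R0 →* MulAut (P i) := fun i => res R R0 (P i) (hstab i)
  have hker : ⨅ i, (ρ i).ker = ⊥ := by
    rw [eq_bot_iff]
    intro s hs
    rw [Subgroup.mem_bot]
    have hfix : ∀ i, ∀ x ∈ P i, ((s : R) : MulAut X) x = x := by
      intro i x hx
      have h1 : s ∈ (ρ i).ker := (iInf_le (fun i => (ρ i).ker) i) hs
      rw [MonoidHom.mem_ker] at h1
      have h2 := congrArg (fun e : MulAut (P i) => ((e ⟨x, hx⟩ : P i) : X)) h1
      exact h2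
    let E : Subgroup X := MonoidHom.eqLocus (((s : R) : MulAut X) : X ≃* X).toMonoidHom
      (MonoidHom.id X)
    have hPE : ∀ i, P i ≤ E := fun i x hx => hfix i x hx
    have hdvd : Nat.card X ∣ Nat.card E := by
      rw [Nat.dvd_iff_prime_pow_dvd_dvd]
      intro p m hp hpm
      rcases Nat.eq_zero_or_pos m with rfl | hm
      · simp
      · have hpX : p ∣ Nat.card X := (dvd_pow_self p hm.ne').trans hpm
        let i : ι := ⟨p, Nat.mem_primeFactors.2 ⟨hp, hpX, hXpos⟩⟩
        have h1 : m ≤ (Nat.card X).factorization p :=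
          (hp.pow_dvd_iff_le_factorization hXpos).1 hpm
        have h2 : p ^ m ∣ Nat.card (P i) := by
          rw [hcardP i]
          exact pow_dvd_pow p h1
        exact h2.trans (Subgroup.card_dvd_of_le (hPE i))
    have hE : E = ⊤ := by
      apply Subgroup.eq_top_of_card_eq
      exact le_antisymm (Subgroup.card_le_card_group E)
        (Nat.le_of_dvd Nat.card_pos hdvd)
    have hall : ∀ x, ((s : R) : MulAut X) x = x := by
      intro x
      have : x ∈ E := by rw [hE]; exact Subgroup.mem_top x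
      exact this
    apply Subtype.ext
    apply Subtype.ext
    ext x
    exact hall x
  -- tameness of the images
  have hT : ∀ i, Tame (ρ i).range k c0 := by
    intro i
    have hpg : IsPGroup r (ρ i).range :=
      (hR.to_subgroup R0).of_surjective (ρ i).rangeRestrict (ρ i).rangeRestrict_surjective
    by_cases hir : (i : ℕ) = r
    · have hfP : Finite (MulAut (P i)) :=
        Finite.of_injective MulEquiv.toEquiv MulEquiv.toEquiv_injective
      refine tame_mono (Nat.zero_le k) ?_ (tame_card (ρ i).range)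
      have h1 : Nat.card (ρ i).range ≤ Nat.card (P i → P i) :=
        Nat.card_le_card_of_injective (fun (s : (ρ i).range) (x : P i) => (s : MulAut (P i)) x)
          (fun s t hst => Subtype.ext (MulEquiv.ext fun x => congrFun hst x))
      rw [Nat.card_fun] at h1
      have h2 : Nat.card (P i) ≤ r ^ k := by
        rw [hcardP i, hir]
        exact Nat.pow_le_pow_right hrpos (hd r)
      calc Nat.card (ρ i).range ≤ Nat.card (P i) ^ Nat.card (P i) := h1
        _ ≤ (r ^ k) ^ Nat.card (P i) := Nat.pow_le_pow_left h2 _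
        _ ≤ (r ^ k) ^ (r ^ k) := Nat.pow_le_pow_right (pow_pos hrpos k) h2
        _ ≤ c0 := by omega
    · have h1 := hPGR (i : ℕ) r (hιp i) hr hir ((Nat.card X).factorization (i : ℕ)) (P i)
        (hcardP i) (ρ i).range hpg
      refine tame_mono (hd i) ?_ h1
      have hdi := hd (i : ℕ)
      calc ((Nat.card X).factorization (i : ℕ)).factorial ^ (Nat.card X).factorization (i : ℕ)
          ≤ k.factorial ^ (Nat.card X).factorization (i : ℕ) :=
            Nat.pow_le_pow_left (Nat.factorial_le hdi) _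
        _ ≤ k.factorial ^ k := Nat.pow_le_pow_right (Nat.factorial_pos k) hdi
        _ ≤ c0 := by omega
  have h1 : Tame R0 (∑ _i : ι, k) (∏ _i : ι, c0) :=
    hPROD ι R0 (fun i => MulAut (P i)) ρ hker (fun _ => k) (fun _ => c0) hT
  have h2 : Tame R0 (k * k) (c0 ^ k) := by
    refine tame_mono ?_ ?_ h1
    · rw [Finset.sum_const, Finset.card_univ, smul_eq_mul]
      exact Nat.mul_le_mul_right k hιc
    · rw [Finset.prod_const, Finset.card_univ]
      exact Nat.pow_le_pow_right hc0pos hιc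
  have h3 := hCORE R R0 (k * k) (c0 ^ k) h2
  refine tame_mono le_rfl ?_ h3
  calc (c0 ^ k * R0.index) ^ R0.index ≤ (c0 ^ k * I0) ^ R0.index :=
        Nat.pow_le_pow_left (Nat.mul_le_mul_left _ hidx0) _
    _ ≤ (c0 ^ k * I0) ^ I0 :=
        Nat.pow_le_pow_right (Nat.mul_pos (pow_pos hc0pos k) hI0pos) hidx0

end Pool.Agent.R823.SA
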