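import Pool.Agent.R823.SA.H1
import Pool.Agent.R823.SA.EXT
import Pool.Agent.R823.SA.IND
import Pool.Agent.R823.SA.PROD
import Pool.Agent.R823.SA.CORE
import Pool.Agent.R823.SA.MAXAB
import Pool.Agent.R823.SA.LIN
import Pool.Agent.R823.SA.PGR
import Pool.Agent.R823.SA.SYL
import Pool.Agent.R823.SA.TX
import Pool.Agent.R823.SA.MAIN

namespace Pool.Agent.R823.SA

theorem main : S_MAIN :=
  sMAIN (sIND (sEXT sH1)) (sTX sSYL sPROD sCORE (sPGR (sLIN sMAXAB) sPROD))

end Pool.Agent.R823.SA
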