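import Pool.Agent.R823.SA.Stm

/-! SA-H1: counting homomorphisms into a tame group. -/

namespace Pool.Agent.R823.SA

namespace H1

/-- For a finite commutative group the cokernel and the kernel of the power map have the same order. -/
theorem card_coker (A : Type) [CommGroup A] [Finite A] (q : ℕ) :
    Nat.card (A ⧸ (powMonoidHom q : A →* A).range) = Nat.card {x : A // x ^ q = 1} := by
  have h1 := Subgroup.card_mul_index (powMonoidHom q : A →* A).range
  have h2 := Subgroup.card_mul_index (powMonoidHom q : A →* A).ker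
  rw [Subgroup.index_ker] at h2
  have h3 : Nat.card (powMonoidHom q : A →* A).ker = Nat.card {x : A // x ^ q = 1} :=
    Nat.card_congr (Equiv.subtypeEquivRight fun x => by rw [MonoidHom.mem_ker, powMonoidHom_apply])
  have h4 : 0 < Nat.card (powMonoidHom q : A →* A).range := Nat.card_pos
  rw [← h2, mul_comm (Nat.card (powMonoidHom q : A →* A).ker)] at h1
  have h5 := Nat.eq_of_mul_eq_mul_left h4 h1
  rw [← h3, ← h5]
  rfl

theorem alg {A : Type} [CommGroup A] (u V α β : A) : V⁻¹ * ((u * V) * (α * β)⁻¹) * β = u * α⁻¹ := by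
  have h : V⁻¹ * ((u * V) * (α * β)⁻¹) * β = (V⁻¹ * V) * (u * α⁻¹) * (β⁻¹ * β) := by
    rw [mul_inv]
    ac_rfl
  rw [h, inv_mul_cancel, inv_mul_cancel, one_mul, mul_one]

end H1

open H1 in
theorem sH1 : S_H1 := by
  intro Q S _ _ _ _ a c hT
  obtain ⟨A, hN, hcomm, hind, htor⟩ := hT
  classical
  have := hN
  let : Fintype Q := Fintype.ofFinite Q
  let : CommGroup A :=
    { (inferInstance : Group A) with mul_comm := fun x y => Subtype.ext (hcomm x.1 x.2 y.1 y.2) }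
  obtain ⟨q, hqd⟩ : ∃ q, q = Nat.card Q := ⟨_, rfl⟩
  rw [← hqd]
  have hq : 0 < q := hqd ▸ Nat.card_pos
  have hT : Nat.card {x : A // x ^ q = 1} ≤ q ^ a := by
    refine le_trans (le_of_eq ?_) (htor q hq)
    refine Nat.card_congr ⟨fun x => ⟨x.1.1, x.1.2, ?_⟩, fun x => ⟨⟨x.1, x.2.1⟩, ?_⟩, fun x => rfl, fun x => rfl⟩
    · have := congrArg Subtype.val x.2
      exact this
    · exact Subtype.ext x.2.2
  have hK := card_coker A q
  -- the projection to S / A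
  obtain ⟨tau, htau⟩ : ∃ tau : (Q →* S) → Q → S ⧸ A, ∀ φ g, tau φ g = (φ g : S ⧸ A) := ⟨_, fun _ _ => rfl⟩
  obtain ⟨base, hbase⟩ : ∃ base : (Q → S ⧸ A) → (Q →* S), ∀ φ, tau (base (tau φ)) = tau φ := by
    refine ⟨fun τ => if h : ∃ φ : Q →* S, tau φ = τ then h.choose else 1, fun φ => ?_⟩
    have h : ∃ φ' : Q →* S, tau φ' = tau φ := ⟨φ, rfl⟩
    have h2 : (if h : ∃ φ' : Q →* S, tau φ' = tau φ then h.choose else 1) = h.choose := dif_pos h
    beta_reduce
    rw [h2]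
    exact h.choose_spec
  have hzA : ∀ (φ : Q →* S) (g : Q), φ g * (base (tau φ) g)⁻¹ ∈ A := by
    intro φ g
    have h1 : ((base (tau φ) g : S) : S ⧸ A) = (φ g : S ⧸ A) := by
      rw [← htau, ← htau, hbase]
    have h2 := (QuotientGroup.eq_iff_div_mem).mp h1.symm
    rwa [div_eq_mul_inv] at h2
  obtain ⟨z, hz⟩ : ∃ z : (Q →* S) → Q → A, ∀ φ g, (z φ g : S) = φ g * (base (tau φ) g)⁻¹ :=
    ⟨fun φ g => ⟨_, hzA φ g⟩, fun _ _ => rfl⟩
  obtain ⟨act, hact⟩ : ∃ act : (Q → S ⧸ A) → Q → (A →* A), ∀ τ g (x : A),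
      (act τ g x : S) = base τ g * x * (base τ g)⁻¹ :=
    ⟨fun τ g => (MulAut.conjNormal (base τ g)).toMonoidHom, fun τ g x => MulAut.conjNormal_apply _ _⟩
  have hcoc : ∀ φ g h, z φ (g * h) = z φ g * act (tau φ) g (z φ h) := by
    intro φ g h
    apply Subtype.ext
    rw [Subgroup.coe_mul, hz, hz, hact, hz, map_mul, map_mul]
    group
  obtain ⟨w, hw⟩ : ∃ w : (Q →* S) → A, ∀ φ, w φ = ∏ h, z φ h := ⟨_, fun _ => rfl⟩
  have hwg : ∀ φ g, w φ = z φ g ^ q * act (tau φ) g (w φ) := by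
    intro φ g
    have h1 : ∏ h, z φ (g * h) = ∏ h, z φ h := Fintype.prod_equiv (Equiv.mulLeft g) _ _ fun h => rfl
    rw [← hw] at h1
    calc w φ = ∏ h, z φ (g * h) := h1.symm
      _ = ∏ h, (z φ g * act (tau φ) g (z φ h)) := Finset.prod_congr rfl fun h _ => hcoc φ g h
      _ = z φ g ^ q * act (tau φ) g (w φ) := by
        rw [Finset.prod_mul_distrib, Finset.prod_const, Finset.card_univ, ← map_prod, ← hw, hqd,
          Nat.card_eq_fintype_card]
  -- representatives modulo q-th powers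
  obtain ⟨u, hu⟩ : ∃ u : (A ⧸ (powMonoidHom q : A →* A).range) → A,
      ∀ k, (QuotientGroup.mk (u k) : A ⧸ (powMonoidHom q : A →* A).range) = k :=
    ⟨Quotient.out, fun k => QuotientGroup.out_eq' k⟩
  obtain ⟨kk, hkk⟩ : ∃ kk : (Q →* S) → (A ⧸ (powMonoidHom q : A →* A).range),
      ∀ φ, kk φ = QuotientGroup.mk (w φ) := ⟨_, fun _ => rfl⟩
  have hv' : ∀ φ, ∃ v : A, w φ = u (kk φ) * v ^ q := by
    intro φ
    have h1 : (QuotientGroup.mk (u (kk φ)) : A ⧸ (powMonoidHom q : A →* A).range) =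
        QuotientGroup.mk (w φ) := by rw [hu, hkk]
    rw [QuotientGroup.eq] at h1
    obtain ⟨v, hv⟩ := h1
    refine ⟨v, ?_⟩
    have h2 : v ^ q = (u (kk φ))⁻¹ * w φ := hv
    rw [h2, mul_inv_cancel_left]
  choose v hv using hv'
  obtain ⟨z', hz'⟩ : ∃ z' : (Q →* S) → Q → A, ∀ φ g,
      z' φ g = (v φ)⁻¹ * z φ g * act (tau φ) g (v φ) := ⟨_, fun _ _ => rfl⟩
  have hz'q : ∀ φ g, z' φ g ^ q = u (kk φ) * (act (tau φ) g (u (kk φ)))⁻¹ := by
    intro φ g
    have h3 : z φ g ^ q = w φ * (act (tau φ) g (w φ))⁻¹ := eq_mul_inv_of_mul_eq (hwg φ g).symm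
    have h4 : act (tau φ) g (w φ) = act (tau φ) g (u (kk φ)) * act (tau φ) g (v φ ^ q) := by
      rw [← map_mul, ← hv]
    rw [hz', mul_pow, mul_pow, inv_pow, ← map_pow, h3, h4, hv φ]
    exact alg _ _ _ _
  obtain ⟨x0, hx0⟩ : ∃ x0 : (Q → S ⧸ A) → (A ⧸ (powMonoidHom q : A →* A).range) → Q → A,
      ∀ φ g, x0 (tau φ) (kk φ) g ^ q = z' φ g ^ q := by
    refine ⟨fun τ k g => if h : ∃ x : A, x ^ q = u k * (act τ g (u k))⁻¹ then h.choose else 1, fun φ g => ?_⟩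
    have h : ∃ x : A, x ^ q = u (kk φ) * (act (tau φ) g (u (kk φ)))⁻¹ := ⟨z' φ g, hz'q φ g⟩
    have h2 : (if h : ∃ x : A, x ^ q = u (kk φ) * (act (tau φ) g (u (kk φ)))⁻¹ then h.choose else 1) =
        h.choose := dif_pos h
    beta_reduce
    rw [h2, h.choose_spec, hz'q]
  obtain ⟨y, hy⟩ : ∃ y : (Q →* S) → Q → {x : A // x ^ q = 1}, ∀ φ g,
      (y φ g : A) = (x0 (tau φ) (kk φ) g)⁻¹ * z' φ g := by
    refine ⟨fun φ g => ⟨(x0 (tau φ) (kk φ) g)⁻¹ * z' φ g, ?_⟩, fun _ _ => rfl⟩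
    rw [mul_pow, inv_pow, hx0, inv_mul_cancel]
  have hz'S : ∀ φ g, (z' φ g : S) = ((v φ : S))⁻¹ * φ g * v φ * (base (tau φ) g)⁻¹ := by
    intro φ g
    rw [hz', Subgroup.coe_mul, Subgroup.coe_mul, Subgroup.coe_inv, hz, hact]
    group
  have key : ∀ φ1 φ2 : Q →* S, tau φ1 = tau φ2 → kk φ1 = kk φ2 → y φ1 = y φ2 →
      ∃ s : S, ∀ g, φ2 g = s * φ1 g * s⁻¹ := by
    intro φ1 φ2 e1 e2 e3
    refine ⟨(v φ2 : S) * (v φ1 : S)⁻¹, fun g => ?_⟩
    have a1 := hy φ1 g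
    have a2 := hy φ2 g
    rw [e1, e2, e3] at a1
    have e4 : z' φ1 g = z' φ2 g := mul_left_cancel (a1.symm.trans a2)
    have e5 := congrArg (Subtype.val) e4
    rw [hz'S, hz'S, e1] at e5
    have e6 := mul_right_cancel e5
    have e7 : φ2 g = (v φ2 : S) * ((v φ2 : S)⁻¹ * φ2 g * v φ2) * (v φ2 : S)⁻¹ := by group
    rw [e7, ← e6]
    group
  -- counting
  have hcount : cl Q S ≤ Nat.card ((Q → S ⧸ A) × (A ⧸ (powMonoidHom q : A →* A).range) ×
      (Q → {x : A // x ^ q = 1})) := by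
    unfold cl
    refine Nat.card_le_card_of_injective
      (fun k => (tau (Quot.out k), kk (Quot.out k), y (Quot.out k))) ?_
    intro k1 k2 h
    have e1 : tau (Quot.out k1) = tau (Quot.out k2) := congrArg Prod.fst h
    have e2 : kk (Quot.out k1) = kk (Quot.out k2) := congrArg (fun p => p.2.1) h
    have e3 : y (Quot.out k1) = y (Quot.out k2) := congrArg (fun p => p.2.2) h
    obtain ⟨s, hs⟩ := key _ _ e1 e2 e3
    rw [← Quot.out_eq k1, ← Quot.out_eq k2]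
    exact Quot.sound ⟨s, hs⟩
  refine hcount.trans ?_
  rw [Nat.card_prod, Nat.card_prod, Nat.card_fun, Nat.card_fun, hK, ← hqd, ← Subgroup.index_eq_card]
  calc A.index ^ q * (Nat.card {x : A // x ^ q = 1} * Nat.card {x : A // x ^ q = 1} ^ q)
      ≤ c ^ q * (q ^ a * (q ^ a) ^ q) := by gcongr
    _ = c ^ q * q ^ (a * (q + 1)) := by
        rw [← pow_mul, ← pow_add]
        congr 2
        ring

end Pool.Agent.R823.SA
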