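import Mathlib

/-! Exact statements of the pieces of PROJECT SA (MP_5f7865_al): the number of inequivalent actions
of a finite SOLVABLE group on a finite group is bounded in terms of the number of prime factors. -/

namespace Pool.Agent.R823.SA

/-- number of homomorphisms `G → B` up to conjugation by `B`. -/
noncomputable def cl (G B : Type) [Group G] [Group B] : ℕ :=
  Nat.card (Quot (fun φ ψ : G →* B => ∃ a : B, ∀ g : G, ψ g = a * φ g * a⁻¹))

/-- `S` has an abelian normal subgroup of index at most `c` with at most `m ^ a` elements of order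
dividing `m`, for every `m > 0`. -/
def Tame (S : Type) [Group S] (a c : ℕ) : Prop :=
  ∃ A : Subgroup S, A.Normal ∧ (∀ x ∈ A, ∀ y ∈ A, x * y = y * x) ∧ A.index ≤ c ∧
    ∀ m : ℕ, 0 < m → Nat.card {x : S // x ∈ A ∧ x ^ m = 1} ≤ m ^ a

/-- counting homomorphisms into a tame group. -/
def S_H1 : Prop := ∀ (Q S : Type) [Group Q] [Finite Q] [Group S] [Finite S] (a c : ℕ)
  (_ : Tame S a c), cl Q S ≤ c ^ (Nat.card Q) * (Nat.card Q) ^ (a * (Nat.card Q + 1))

/-- extension step: homomorphisms `G → B` with prescribed restriction `ψ` to `N`, up to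
conjugation by the centralizer of `ψ(N)`. -/
def S_EXT : Prop := ∀ (G B : Type) [Group G] [Finite G] [Group B] [Finite B] (r : ℕ)
  (_ : r.Prime) (N : Subgroup G) [N.Normal] (_ : IsPGroup r (G ⧸ N)) (a c : ℕ)
  (_ : ∀ S : Subgroup B, IsPGroup r S → Tame S a c) (ψ : N →* B),
  Nat.card (Quot (fun φ φ' : {φ : G →* B // ∀ n : N, φ n = ψ n} =>
      ∃ b : B, (∀ n : N, b * ψ n = ψ n * b) ∧ ∀ g : G, φ'.1 g = b * φ.1 g * b⁻¹)) ≤
    Nat.card G * (c ^ (Nat.card G) * (Nat.card G) ^ (a * (Nat.card G + 1)))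

/-- the count for solvable `G`. -/
def S_IND : Prop := ∀ (G : Type) [Group G] [Finite G] [Group.IsSolvable G] (a c : ℕ),
  ∃ K : ℕ, ∀ (B : Type) [Group B] [Finite B],
    (∀ r : ℕ, r.Prime → r ∣ Nat.card G → ∀ S : Subgroup B, IsPGroup r S → Tame S a c) →
    cl G B ≤ K

/-- jointly faithful tame images. -/
def S_PROD : Prop := ∀ (ι : Type) [Fintype ι] (R : Type) [Group R] [Finite R] (H : ι → Type)
  [∀ i, Group (H i)] (ρ : ∀ i, R →* H i) (_ : ⨅ i, (ρ i).ker = ⊥) (a c : ι → ℕ)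
  (_ : ∀ i, Tame (ρ i).range (a i) (c i)), Tame R (∑ i, a i) (∏ i, c i)

/-- passing to an overgroup of finite index. -/
def S_CORE : Prop := ∀ (R : Type) [Group R] [Finite R] (R0 : Subgroup R) (a c : ℕ)
  (_ : Tame R0 a c), Tame R a ((c * R0.index) ^ R0.index)

/-- a finite `r`-group has a self-centralizing abelian normal subgroup. -/
def S_MAXAB : Prop := ∀ (r : ℕ) (_ : r.Prime) (R : Type) [Group R] [Finite R] (_ : IsPGroup r R),
  ∃ A : Subgroup R, A.Normal ∧ (∀ x ∈ A, ∀ y ∈ A, x * y = y * x) ∧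
    ∀ g : R, (∀ x ∈ A, g * x = x * g) → g ∈ A

/-- an `r`-group of automorphisms has a subgroup of small index normalizing a Sylow `p`-subgroup. -/
def S_SYL : Prop := ∀ (r p : ℕ) (_ : r.Prime) (_ : p.Prime) (X : Type) [Group X] [Finite X]
  (R : Subgroup (MulAut X)) (_ : IsPGroup r R),
  ∃ (P : Subgroup X) (R0 : Subgroup R),
    (∃ P' : Sylow p X, P = P'.toSubgroup) ∧ R0.index ≤ r ^ (Nat.primeFactorsList (Nat.card X)).length ∧
    ∀ ρ ∈ R0, P.map (MulEquiv.toMonoidHom (ρ : MulAut X)) = P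

/-- coprime linear action. -/
def S_LIN : Prop := ∀ (p r : ℕ) (_ : p.Prime) (_ : r.Prime) (_ : p ≠ r) (d : ℕ) (V : Type)
  [CommGroup V] [Finite V] (_ : ∀ v : V, v ^ p = 1) (_ : Nat.card V = p ^ d)
  (R : Subgroup (MulAut V)) (_ : IsPGroup r R), Tame R d d.factorial

/-- coprime action on a `p`-group. -/
def S_PGR : Prop := ∀ (p r : ℕ) (_ : p.Prime) (_ : r.Prime) (_ : p ≠ r) (d : ℕ) (P : Type)
  [Group P] [Finite P] (_ : Nat.card P = p ^ d)
  (R : Subgroup (MulAut P)) (_ : IsPGroup r R), Tame R d (d.factorial ^ d)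

/-- `r`-groups of automorphisms of an arbitrary finite group. -/
def S_TX : Prop := ∀ (r : ℕ) (_ : r.Prime) (k : ℕ), ∃ a c : ℕ, ∀ (X : Type) [Group X] [Finite X],
  (Nat.primeFactorsList (Nat.card X)).length = k →
  ∀ R : Subgroup (MulAut X), IsPGroup r R → Tame R a c

/-- main theorem -/
def S_MAIN : Prop := ∀ (G : Type) [Group G] [Finite G] [Group.IsSolvable G], ∃ f : ℕ → ℕ,
  ∀ (X : Type) [Group X] [Finite X],
    Nat.card (Quot (fun φ ψ : G →* MulAut X => ∃ a : MulAut X, ∀ g : G, ψ g = a * φ g * a⁻¹))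
      ≤ f (Nat.primeFactorsList (Nat.card X)).length

end Pool.Agent.R823.SA
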